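import Mathlib
import Pool.Agent.MP_f32cb9_nt.Blocks
import Pool.Agent.MP_f32cb9_nt.Level
import Pool.Agent.MP_f32cb9_nt.Forms

/-!
A lower bound sieve with at most two forbidden classes modulo every prime `≤ y`: every interval of
length `y ^ B` contains an integer that avoids all of them.
-/

namespace Pool.Agent.LBS

open Finset hiding dens
open Pool.Agent.MP_f32cb9_nt

/-- the block of the primes in `(2 ^ (10 * 2 ^ i), 2 ^ (10 * 2 ^ (i + 1))]` -/
noncomputable def BK (i : ℕ) : Finset ℕ := PI (2 ^ (10 * 2 ^ i)) (2 ^ (10 * 2 ^ (i + 1)))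

/-- truncation parameters -/
def bk (m i : ℕ) : ℕ := 8 + (m - 1 - i)

/-- errors -/
noncomputable def ek (m i : ℕ) : ℝ := 1 / (8 * 2 ^ (m - 1 - i))

theorem mem_BK {i p : ℕ} :
    p ∈ BK i ↔ 2 ^ (10 * 2 ^ i) < p ∧ p ≤ 2 ^ (10 * 2 ^ (i + 1)) ∧ p.Prime := by
  unfold BK
  rw [mem_PI]

theorem big_of_mem {i p : ℕ} (h : p ∈ BK i) : 1024 < p := by
  have h1 := (mem_BK.1 h).1
  have h2 : 2 ^ 10 ≤ 2 ^ (10 * 2 ^ i) := by
    apply Nat.pow_le_pow_right (by norm_num)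
    have := Nat.one_le_two_pow (n := i)
    omega
  norm_num at h2
  omega

theorem BK_disj {i j : ℕ} (hij : i ≠ j) : Disjoint (BK i) (BK j) := by
  have key : ∀ i j : ℕ, i < j → Disjoint (BK i) (BK j) := by
    intro i j h
    rw [Finset.disjoint_left]
    intro p hp hq
    rw [mem_BK] at hp hq
    have h1 : 2 ^ (10 * 2 ^ (i + 1)) ≤ 2 ^ (10 * 2 ^ j) := by
      apply Nat.pow_le_pow_right (by norm_num)
      have := Nat.pow_le_pow_right (n := 2) (by norm_num) (Nat.succ_le_of_lt h)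
      simp only [Nat.succ_eq_add_one] at this
      omega
    omega
  rcases lt_or_gt_of_ne hij with h | h
  · exact key i j h
  · exact (key j i h).symm

/-- the standing assumption on the forbidden classes -/
def Adm (R : ℕ → Finset ℕ) : Prop := ∀ q : ℕ, q.Prime → 1024 < q → R q ⊆ range q ∧ (R q).card ≤ 2

theorem dens_BK {R : ℕ → Finset ℕ} (hR : Adm R) {i p : ℕ} (hp : p ∈ BK i) :
    0 ≤ dens R p ∧ dens R p ≤ 1 / 2 ∧ dens R p ≤ 2 * (1 / p : ℝ) := by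
  have h1 := big_of_mem hp
  have h2 := (mem_BK.1 hp).2.2
  have hc := (hR p h2 h1).2
  have hp0 : (0 : ℝ) < p := by exact_mod_cast h2.pos
  have hc' : ((R p).card : ℝ) ≤ 2 := by exact_mod_cast hc
  have h1' : (1024 : ℝ) < p := by exact_mod_cast h1
  unfold dens
  refine ⟨by positivity, ?_, ?_⟩
  · rw [div_le_div_iff₀ hp0 (by norm_num)]
    linarith
  · rw [mul_one_div]
    exact div_le_div_of_nonneg_right hc' hp0.le

theorem kappa_BK {R : ℕ → Finset ℕ} (hR : Adm R) (i : ℕ) :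
    ∑ p ∈ BK i, dens R p ≤ 3 := by
  have h1 : ∑ p ∈ BK i, dens R p ≤ ∑ p ∈ BK i, 2 * (1 / p : ℝ) :=
    Finset.sum_le_sum fun p hp => (dens_BK hR hp).2.2
  rw [← Finset.mul_sum] at h1
  have hpos : 1 ≤ 2 ^ i := Nat.one_le_two_pow
  have h2 := sum_inv_PI_two (s := 10 * 2 ^ i) (t := 10 * 2 ^ (i + 1)) (by omega)
    (by rw [pow_succ]; omega)
  have h3 : ((10 * 2 ^ (i + 1) : ℕ) : ℝ) / ((10 * 2 ^ i : ℕ) : ℝ) = 2 := by
    push_cast
    rw [pow_succ]
    field_simp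
  rw [h3] at h2
  have h4 : (8 : ℝ) / ((10 * 2 ^ i : ℕ) : ℝ) ≤ 8 / 10 := by
    apply div_le_div_of_nonneg_left (by norm_num) (by norm_num)
    have : (10 : ℕ) ≤ 10 * 2 ^ i := by omega
    exact_mod_cast this
  have h5 := Real.log_two_lt_d9
  unfold BK at h1 ⊢
  linarith

theorem Vb_BK {R : ℕ → Finset ℕ} (hR : Adm R) (i : ℕ) : Real.exp (-6) ≤ Vb R BK i := by
  unfold Vb
  have h1 : ∏ p ∈ BK i, Real.exp (-(2 * dens R p)) ≤ ∏ p ∈ BK i, (1 - dens R p) := by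
    apply Finset.prod_le_prod
    · intro p _; positivity
    · intro p hp
      obtain ⟨h2, h3, _⟩ := dens_BK hR hp
      exact one_sub_ge_exp h2 h3
  refine le_trans ?_ h1
  rw [← Real.exp_sum]
  apply Real.exp_le_exp.2
  rw [Finset.sum_neg_distrib, ← Finset.mul_sum]
  linarith [kappa_BK hR i]

theorem esy_BK {R : ℕ → Finset ℕ} (hR : Adm R) (m i : ℕ) :
    esy (dens R) (2 * bk m i + 1) (BK i) ≤ ek m i * Vb R BK i := by
  have h1 := esy_le (dens R) (2 * bk m i + 1) (BK i) (fun p hp => (dens_BK hR hp).1)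
  have hk := kappa_BK hR i
  have hs0 : 0 ≤ ∑ p ∈ BK i, dens R p := Finset.sum_nonneg fun p hp => (dens_BK hR hp).1
  set u := m - 1 - i with hu
  set n := 2 * bk m i + 1 with hn
  have hf : (0 : ℝ) < n.factorial := by exact_mod_cast n.factorial_pos
  have h2 : (∑ p ∈ BK i, dens R p) ^ n / n.factorial ≤ 3 ^ n / n.factorial :=
    div_le_div_of_nonneg_right (pow_le_pow_left₀ hs0 hk n) hf.le
  have h3 : (12 : ℝ) ^ n / n.factorial ≤ Real.exp 12 := Real.pow_div_factorial_le_exp 12 (by norm_num) n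
  have h4 : (3 : ℝ) ^ n / n.factorial = 12 ^ n / n.factorial / 4 ^ n := by
    rw [show (12 : ℝ) = 3 * 4 by norm_num, mul_pow]
    field_simp
  have h5 : (3 : ℝ) ^ n / n.factorial ≤ Real.exp 12 / 4 ^ n := by
    rw [h4]
    exact div_le_div_of_nonneg_right h3 (by positivity)
  refine (h1.trans (h2.trans h5)).trans ?_
  have h6 : (4 : ℝ) ^ n = 4 ^ 17 * 4 ^ (2 * u) := by
    rw [← pow_add, hn, bk, ← hu]; congr 1; ring
  have he0 : 0 ≤ ek m i := by unfold ek; positivity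
  have h8 : ek m i * Real.exp (-6) ≤ ek m i * Vb R BK i :=
    mul_le_mul_of_nonneg_left (Vb_BK hR i) he0
  refine le_trans ?_ h8
  unfold ek
  rw [← hu, div_le_iff₀ (by positivity), h6]
  have h9 : Real.exp 12 = Real.exp 18 * Real.exp (-6) := by
    rw [← Real.exp_add]; norm_num
  rw [h9]
  have h10 : 0 < Real.exp (-6) := Real.exp_pos _
  have h11 : Real.exp 18 ≤ 1 / (8 * 2 ^ u) * (4 ^ 17 * 4 ^ (2 * u)) := by
    rw [one_div_mul_eq_div, le_div_iff₀ (by positivity)]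
    have e18 := exp18
    have hexp : 0 < Real.exp 18 := Real.exp_pos _
    have h12 : (2 : ℝ) ^ u ≤ 4 ^ (2 * u) := by
      calc (2 : ℝ) ^ u ≤ 4 ^ u := pow_le_pow_left₀ (by norm_num) (by norm_num) u
        _ ≤ 4 ^ (2 * u) := pow_le_pow_right₀ (by norm_num) (by omega)
    have h13 : Real.exp 18 * 8 ≤ 4 ^ 17 := by linarith
    calc Real.exp 18 * (8 * 2 ^ u) = (Real.exp 18 * 8) * 2 ^ u := by ring
      _ ≤ 4 ^ 17 * 4 ^ (2 * u) := mul_le_mul h13 h12 (by positivity) (by positivity)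
  calc Real.exp 18 * Real.exp (-6) ≤
      (1 / (8 * 2 ^ u) * (4 ^ 17 * 4 ^ (2 * u))) * Real.exp (-6) :=
        mul_le_mul_of_nonneg_right h11 h10.le
    _ = _ := by ring

theorem sum_ek (m : ℕ) : ∑ i ∈ range m, ek m i ≤ 1 / 4 := by
  have h1 : ∑ i ∈ range m, ek m i = ∑ i ∈ range m, (1 : ℝ) / (8 * 2 ^ i) := by
    unfold ek
    exact Finset.sum_range_reflect (fun j => (1 : ℝ) / (8 * 2 ^ j)) m
  rw [h1]
  have h2 : ∀ m : ℕ, ∑ i ∈ range m, (1 : ℝ) / (8 * 2 ^ i) = 1 / 4 - 1 / (4 * 2 ^ m) := by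
    intro m
    induction m with
    | zero => norm_num
    | succ m ih =>
      rw [Finset.sum_range_succ, ih, pow_succ]
      field_simp
      ring
  rw [h2]
  have : (0 : ℝ) ≤ 1 / (4 * 2 ^ m) := by positivity
  linarith

theorem HA_BK {R : ℕ → Finset ℕ} (hR : Adm R) (m : ℕ) :
    1 / 2 * Real.exp (-6 * m) ≤ HA R BK (bk m) m := by
  have h := HA_ge R BK (bk m) (ek m) (fun i => by unfold ek; positivity) m (sum_ek m)
    (fun i _ p hp => ⟨(dens_BK hR hp).1, by linarith [(dens_BK hR hp).2.1]⟩)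
    (fun i _ => esy_BK hR m i)
  refine le_trans ?_ h
  have h1 : Real.exp (-6 * m) ≤ VV R BK m := by
    unfold VV
    calc Real.exp (-6 * m) = ∏ _i ∈ range m, Real.exp (-6) := by
          rw [Finset.prod_const, card_range, ← Real.exp_nat_mul]; congr 1; ring
      _ ≤ _ := Finset.prod_le_prod (fun _ _ => (Real.exp_pos _).le) fun i _ => Vb_BK hR i
  have h2 := sum_ek m
  have h3 : 0 < Real.exp (-6 * m) := Real.exp_pos _
  have h4 : (1 : ℝ) / 2 ≤ 1 - 2 * ∑ i ∈ range m, ek m i := by linarith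
  exact mul_le_mul h4 h1 h3.le (by linarith)

theorem Wt_BK {R : ℕ → Finset ℕ} (hR : Adm R) (m i : ℕ) :
    Wt R (2 * bk m i + 1) (BK i) ≤ (2 : ℝ) ^ (40 * (2 ^ i * (17 + 2 * (m - 1 - i)))) := by
  have hcard : ∑ p ∈ BK i, ((R p).card : ℝ) ≤ 2 * 2 ^ (10 * 2 ^ (i + 1)) := by
    have h1 : ∀ p ∈ BK i, ((R p).card : ℝ) ≤ 2 := by
      intro p hp
      have := (hR p (mem_BK.1 hp).2.2 (big_of_mem hp)).2
      exact_mod_cast this
    refine (Finset.sum_le_sum h1).trans ?_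
    rw [Finset.sum_const, nsmul_eq_mul, mul_comm]
    have h2 : (BK i).card ≤ 2 ^ (10 * 2 ^ (i + 1)) := by
      have h3 : BK i ⊆ Icc 1 (2 ^ (10 * 2 ^ (i + 1))) := by
        intro q hq
        have := mem_BK.1 hq
        rw [mem_Icc]
        exact ⟨this.2.2.one_le, this.2.1⟩
      simpa using Finset.card_le_card h3
    have h4 : ((BK i).card : ℝ) ≤ 2 ^ (10 * 2 ^ (i + 1)) := by exact_mod_cast h2
    linarith
  have h0 : (0 : ℝ) ≤ 1 + ∑ p ∈ BK i, ((R p).card : ℝ) := by positivity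
  have hX : (4 : ℝ) ≤ 2 ^ (10 * 2 ^ (i + 1)) := by
    have h1 : 2 ≤ 10 * 2 ^ (i + 1) := by
      have := Nat.one_le_two_pow (n := i + 1)
      omega
    calc (4 : ℝ) = 2 ^ 2 := by norm_num
      _ ≤ _ := pow_le_pow_right₀ (by norm_num) h1
  have hb : (1 : ℝ) + ∑ p ∈ BK i, ((R p).card : ℝ) ≤ 2 ^ (2 * (10 * 2 ^ (i + 1))) := by
    rw [two_mul, pow_add]
    nlinarith
  calc Wt R (2 * bk m i + 1) (BK i)
      ≤ (1 + ∑ p ∈ BK i, ((R p).card : ℝ)) ^ (2 * bk m i + 1) := Wt_le _ _ _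
    _ ≤ (2 ^ (2 * (10 * 2 ^ (i + 1)))) ^ (2 * bk m i + 1) := pow_le_pow_left₀ h0 hb _
    _ = _ := by
      rw [← pow_mul]; congr 1
      unfold bk
      rw [pow_succ]
      ring

theorem sum_lev (m : ℕ) : ∑ i ∈ range m, 2 ^ i * (17 + 2 * (m - 1 - i)) + 19 ≤ 19 * 2 ^ m := by
  induction m with
  | zero => simp
  | succ m ih =>
    rw [Finset.sum_range_succ]
    have h1 : ∀ i ∈ range m, 2 ^ i * (17 + 2 * (m + 1 - 1 - i)) =
        2 ^ i * (17 + 2 * (m - 1 - i)) + 2 * 2 ^ i := by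
      intro i hi
      have : i < m := mem_range.1 hi
      have e : m + 1 - 1 - i = (m - 1 - i) + 1 := by omega
      rw [e]; ring
    rw [Finset.sum_congr rfl h1, Finset.sum_add_distrib, ← Finset.mul_sum]
    have h2 : ∑ i ∈ range m, 2 ^ i + 1 = 2 ^ m := by
      have := Nat.geomSum_eq (m := 2) (le_refl 2) m
      have h3 := Nat.one_le_two_pow (n := m)
      simp at this
      omega
    have e2 : m + 1 - 1 - m = 0 := by omega
    rw [e2, pow_succ]
    omega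

theorem WW_BK {R : ℕ → Finset ℕ} (hR : Adm R) (m : ℕ) :
    WW R BK (bk m) m ≤ (2 : ℝ) ^ (760 * 2 ^ m) := by
  unfold WW
  calc ∏ i ∈ range m, Wt R (2 * bk m i + 1) (BK i)
      ≤ ∏ i ∈ range m, (2 : ℝ) ^ (40 * (2 ^ i * (17 + 2 * (m - 1 - i)))) :=
        Finset.prod_le_prod (fun i _ => Wt_nonneg _ _ _) fun i _ => Wt_BK hR m i
    _ = (2 : ℝ) ^ (∑ i ∈ range m, 40 * (2 ^ i * (17 + 2 * (m - 1 - i)))) := by
        rw [Finset.prod_pow_eq_pow_sum]
    _ ≤ _ := by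
        apply pow_le_pow_right₀ (by norm_num)
        rw [← Finset.mul_sum]
        have := sum_lev m
        omega

theorem exp6 : Real.exp 6 ≤ 2 ^ 9 := by
  have h1 : Real.exp 1 < 2.7182818286 := Real.exp_one_lt_d9
  have h2 : Real.exp 6 = Real.exp 1 ^ 6 := by
    rw [← Real.exp_nat_mul]; norm_num
  rw [h2]
  have h3 : Real.exp 1 ^ 6 ≤ (2.7182818286 : ℝ) ^ 6 :=
    pow_le_pow_left₀ (Real.exp_pos _).le h1.le 6
  refine h3.trans ?_
  norm_num

theorem exists_sifted {R : ℕ → Finset ℕ} (hR : Adm R) (m : ℕ) :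
    ∃ u : ℕ, 0 < u ∧ u ≤ 2 ^ (800 * 2 ^ m) ∧
      ∀ q : ℕ, q.Prime → 1024 < q → q ≤ 2 ^ (10 * 2 ^ m) → u % q ∉ R q := by
  have hprime : ∀ i < m, ∀ p ∈ BK i, p.Prime := fun i _ p hp => (mem_BK.1 hp).2.2
  have h := sieve_lower R BK (bk m) 0 (2 ^ (800 * 2 ^ m)) m hprime
    (fun i _ j _ hij => BK_disj hij)
    (fun i _ p hp => (hR p (mem_BK.1 hp).2.2 (big_of_mem hp)).1)
  have h1 := HA_BK hR m
  have h2 := WW_BK hR m
  have h3 : (0 : ℝ) < ∑ t ∈ ivl 0 (2 ^ (800 * 2 ^ m)), chi R BK m t := by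
    refine lt_of_lt_of_le ?_ h
    rw [sub_pos]
    push_cast
    have e1 : Real.exp (-6 * m) = (Real.exp 6 ^ m)⁻¹ := by
      rw [← Real.exp_nat_mul, ← Real.exp_neg]; congr 1; ring
    have e2 : Real.exp 6 ^ m ≤ (2 : ℝ) ^ (9 * m) := by
      rw [pow_mul]
      exact pow_le_pow_left₀ (Real.exp_pos _).le exp6 m
    have e3 : ((2 : ℝ) ^ (9 * m))⁻¹ ≤ Real.exp (-6 * m) := by
      rw [e1]
      exact inv_anti₀ (by positivity) e2
    have e4 : 1 / 2 * ((2 : ℝ) ^ (9 * m))⁻¹ ≤ HA R BK (bk m) m := by linarith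
    have e5 : ((m : ℝ) + 1) ≤ 2 ^ m := by
      have : m + 1 ≤ 2 ^ m := Nat.lt_two_pow_self
      exact_mod_cast this
    have hm : 9 * m + 1 + m + 760 * 2 ^ m < 800 * 2 ^ m := by
      have := Nat.lt_two_pow_self (n := m)
      omega
    have e6 : (2 : ℝ) ^ (9 * m + 1 + m + 760 * 2 ^ m) < 2 ^ (800 * 2 ^ m) :=
      pow_lt_pow_right₀ (by norm_num) hm
    have hW : (0 : ℝ) < 2 ^ (760 * 2 ^ m) := by positivity
    calc ((m : ℝ) + 1) * WW R BK (bk m) m ≤ 2 ^ m * 2 ^ (760 * 2 ^ m) :=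
          mul_le_mul e5 h2 (le_trans zero_le_one (one_le_WW _ _ _ _)) (by positivity)
      _ = (2 : ℝ) ^ (9 * m + 1 + m + 760 * 2 ^ m) * (1 / 2 * ((2 : ℝ) ^ (9 * m))⁻¹) := by
          rw [pow_add, pow_add, pow_add]
          field_simp
      _ < 2 ^ (800 * 2 ^ m) * (1 / 2 * ((2 : ℝ) ^ (9 * m))⁻¹) := by
          apply mul_lt_mul_of_pos_right e6
          positivity
      _ ≤ 2 ^ (800 * 2 ^ m) * HA R BK (bk m) m := by
          apply mul_le_mul_of_nonneg_left e4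
          positivity
  obtain ⟨u, hu, hchi⟩ := Finset.exists_ne_zero_of_sum_ne_zero h3.ne'
  rw [mem_ivl] at hu
  refine ⟨u, hu.1, by omega, ?_⟩
  intro q hq h1024 hqle hmem
  -- find the block
  have hex : ∃ j : ℕ, q ≤ 2 ^ (10 * 2 ^ j) := ⟨m, hqle⟩
  classical
  set j := Nat.find hex with hj
  have hj1 : q ≤ 2 ^ (10 * 2 ^ j) := Nat.find_spec hex
  have hjm : j ≤ m := Nat.find_min' hex hqle
  have hj0 : j ≠ 0 := by
    intro h0
    rw [h0] at hj1
    norm_num at hj1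
    omega
  obtain ⟨i, hi⟩ := Nat.exists_eq_succ_of_ne_zero hj0
  have hi1 : ¬ q ≤ 2 ^ (10 * 2 ^ i) := Nat.find_min hex (by omega)
  have hqB : q ∈ BK i := by
    rw [mem_BK]
    refine ⟨by omega, ?_, hq⟩
    rw [← Nat.succ_eq_add_one, ← hi]; exact hj1
  apply hchi
  unfold chi
  apply Finset.prod_eq_zero (mem_range.2 (by omega : i < m))
  apply Finset.prod_eq_zero hqB
  unfold hit
  rw [if_pos hmem, sub_self]

end Pool.Agent.LBS
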