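import Mathlib

/-!
Rigidity of completely additive/multiplicative functions in one residue class modulo a prime `p`
below `2 p ^ 2`, and the consequence for the parity of the number of prime factors.
-/

namespace Pool.Agent.LBS

variable {G : Type*} [AddCommGroup G]

/-- `R p f s`: the value at the class `s x` is `f s` plus the value at `x`. -/
def R (p : ℕ) (f : ℕ → G) (s : ℕ) : Prop :=
  ∀ x : ZMod p, x ≠ 0 → f (((s : ZMod p) * x).val) = f s + f x.val

/-- the hypotheses: complete additivity and constancy on one class. -/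
structure Hyp (p : ℕ) (f : ℕ → G) : Prop where
  prime : p.Prime
  odd : p ≠ 2
  mul : ∀ m n : ℕ, m ≠ 0 → n ≠ 0 → f (m * n) = f m + f n
  per : ∀ s : ℕ, 0 < s → s < p → f (s + p) = f s

theorem per_of_const {p : ℕ} (hp : p.Prime) {f : ℕ → G}
    (hmul : ∀ m n : ℕ, m ≠ 0 → n ≠ 0 → f (m * n) = f m + f n)
    {a : ℕ} (ha : ¬ p ∣ a) {c : G}
    (hc : ∀ n : ℕ, 0 < n → n < 2 * p ^ 2 → n ≡ a [MOD p] → f n = c)
    (s : ℕ) (hs0 : 0 < s) (hsp : s < p) : f (s + p) = f s := by
  have : Fact p.Prime := ⟨hp⟩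
  have hs : (s : ZMod p) ≠ 0 := by
    intro h
    rw [ZMod.natCast_eq_zero_iff] at h
    exact absurd (Nat.le_of_dvd hs0 h) (by omega)
  have ha' : (a : ZMod p) ≠ 0 := by
    intro h
    rw [ZMod.natCast_eq_zero_iff] at h
    exact ha h
  set y : ZMod p := (a : ZMod p) * (s : ZMod p)⁻¹ with hy
  set m : ℕ := y.val with hm
  have hmp : m < p := ZMod.val_lt y
  have hy0 : y ≠ 0 := mul_ne_zero ha' (inv_ne_zero hs)
  have hm0 : m ≠ 0 := by
    rw [hm]
    exact (ZMod.val_ne_zero y).mpr hy0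
  have hmy : (m : ZMod p) = y := by
    rw [hm, ZMod.natCast_val, ZMod.cast_id]
  have h1 : m * s ≡ a [MOD p] := by
    rw [← ZMod.natCast_eq_natCast_iff]
    push_cast
    rw [hmy, hy, mul_assoc, inv_mul_cancel₀ hs, mul_one]
  have h2 : m * (s + p) ≡ a [MOD p] := by
    rw [← ZMod.natCast_eq_natCast_iff]
    push_cast
    rw [hmy, hy, ZMod.natCast_self, add_zero, mul_assoc, inv_mul_cancel₀ hs, mul_one]
  have e1 : f (m * s) = c := hc _ (Nat.mul_pos (Nat.pos_of_ne_zero hm0) hs0) (by nlinarith) h1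
  have e2 : f (m * (s + p)) = c :=
    hc _ (Nat.mul_pos (Nat.pos_of_ne_zero hm0) (by omega)) (by nlinarith) h2
  rw [hmul _ _ hm0 (by omega)] at e1 e2
  have := e2.trans e1.symm
  exact add_left_cancel this

/-- below `2 p` the value depends only on the class. -/
theorem eq_val {p : ℕ} {f : ℕ → G} (H : Hyp p f) {n : ℕ} (hn : n < 2 * p)
    (hpn : ¬ p ∣ n) : f n = f ((n : ZMod p)).val := by
  have : Fact p.Prime := ⟨H.prime⟩
  rw [ZMod.val_natCast]
  rcases Nat.lt_or_ge n p with h | h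
  · rw [Nat.mod_eq_of_lt h]
  · obtain ⟨s, rfl⟩ := Nat.exists_eq_add_of_le h
    have hs0 : 0 < s := by
      rcases Nat.eq_zero_or_pos s with h0 | h0
      · subst h0
        exact absurd (by simp) hpn
      · exact h0
    rw [Nat.add_mod_left, Nat.mod_eq_of_lt (by omega), add_comm p s]
    exact H.per s hs0 (by omega)

theorem natCast_ne {p : ℕ} {n : ℕ} (h0 : 0 < n) (h : n < p) : (n : ZMod p) ≠ 0 := by
  intro h'
  rw [ZMod.natCast_eq_zero_iff] at h'
  exact absurd (Nat.le_of_dvd h0 h') (by omega)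

theorem R_mul {p : ℕ} {f : ℕ → G} (H : Hyp p f) {s t : ℕ} (hs : R p f s) (ht : R p f t)
    (hs0 : ¬ p ∣ s) (ht0 : ¬ p ∣ t) : R p f (s * t) := by
  have : Fact p.Prime := ⟨H.prime⟩
  intro x hx
  have ht' : (t : ZMod p) ≠ 0 := by
    intro h
    rw [ZMod.natCast_eq_zero_iff] at h
    exact ht0 h
  have hsn : s ≠ 0 := by rintro rfl; simp at hs0
  have htn : t ≠ 0 := by rintro rfl; simp at ht0
  push_cast
  rw [mul_assoc, hs _ (mul_ne_zero ht' hx), ht _ hx, H.mul _ _ hsn htn, add_assoc]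

/-- the key step: if the class `s x` has a representative `m` with `l * m < 2 p` then the relation
for `l` at `x` follows from the relation for `s`. -/
theorem step_of {p : ℕ} {f : ℕ → G} (H : Hyp p f) {l s m : ℕ} (hl0 : 0 < l) (hlp : l < p)
    (hs : R p f s) (hsp : ¬ p ∣ s) (hm0 : 0 < m) (hm : l * m < 2 * p) (hmp : m < p)
    {x : ZMod p} (hx : x ≠ 0) (hsx : (s : ZMod p) * x = (m : ZMod p)) :
    f (((l : ZMod p) * x).val) = f l + f x.val := by
  have : Fact p.Prime := ⟨H.prime⟩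
  have hl : (l : ZMod p) ≠ 0 := natCast_ne hl0 hlp
  have h1 := hs x hx
  have h2 := hs ((l : ZMod p) * x) (mul_ne_zero hl hx)
  have hpl : ¬ p ∣ l := fun h => absurd (Nat.le_of_dvd hl0 h) (by omega)
  have hpm : ¬ p ∣ m := fun h => absurd (Nat.le_of_dvd hm0 h) (by omega)
  have hplm : ¬ p ∣ l * m := fun h => by
    rcases (Nat.Prime.dvd_mul H.prime).mp h with h | h
    · exact hpl h
    · exact hpm h
  have e1 : (s : ZMod p) * ((l : ZMod p) * x) = ((l * m : ℕ) : ZMod p) := by
    push_cast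
    rw [← hsx]; ring
  rw [e1, ← eq_val H hm hplm, H.mul _ _ (by omega) (by omega)] at h2
  rw [hsx, ← eq_val H (by omega) hpm] at h1
  rw [h1] at h2
  -- f l + (f s + f x.val) = f s + f (l x).val
  have h3 : f s + f (((l : ZMod p) * x).val) = f s + (f l + f x.val) := by
    rw [← h2]; abel
  exact add_left_cancel h3

theorem R_one {p : ℕ} {f : ℕ → G} (H : Hyp p f) : R p f 1 := by
  intro x _
  have h := H.mul 1 1 one_ne_zero one_ne_zero
  rw [mul_one] at h
  have h1 : f 1 = 0 := by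
    have : f 1 + 0 = f 1 + f 1 := by rw [add_zero]; exact h
    exact (add_left_cancel this).symm
  rw [Nat.cast_one, one_mul, h1, zero_add]

theorem R_two {p : ℕ} {f : ℕ → G} (H : Hyp p f) : R p f 2 := by
  have : Fact p.Prime := ⟨H.prime⟩
  intro x hx
  have hp2 : 2 < p := lt_of_le_of_ne H.prime.two_le (Ne.symm H.odd)
  have hv : x.val < p := ZMod.val_lt x
  have hv0 : 0 < x.val := Nat.pos_of_ne_zero ((ZMod.val_ne_zero x).mpr hx)
  refine step_of H (l := 2) (s := 1) (m := x.val) (by norm_num) hp2 (R_one H) ?_ hv0 (by omega) hv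
    hx ?_
  · intro h
    have := Nat.le_of_dvd one_pos h
    omega
  · rw [Nat.cast_one, one_mul, ZMod.natCast_val, ZMod.cast_id]

theorem R_pow {p : ℕ} {f : ℕ → G} (H : Hyp p f) {s : ℕ} (hs : R p f s) (hsp : ¬ p ∣ s) (a : ℕ) :
    R p f (s ^ a) ∧ ¬ p ∣ s ^ a := by
  induction a with
  | zero =>
    refine ⟨by rw [pow_zero]; exact R_one H, ?_⟩
    rw [pow_zero]
    intro h
    have := Nat.le_of_dvd one_pos h
    have := H.prime.two_le
    omega
  | succ a ih =>
    refine ⟨by rw [pow_succ]; exact R_mul H ih.1 hs ih.2 hsp, ?_⟩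
    intro h
    exact hsp (H.prime.dvd_of_dvd_pow h)

/-- Dirichlet's approximation in the form needed. -/
theorem dirichlet {p : ℕ} (hp : p.Prime) {l : ℕ} (hl : 2 ≤ l) (hlp : l < p) {n : ℕ} (hn0 : 0 < n)
    (hn : n < p) : ∃ k : ℕ, ∃ j : ℤ, 0 < k ∧ k < l ∧ (k : ℤ) * n - j * p ≠ 0 ∧
      (l : ℤ) * |(k : ℤ) * n - j * p| ≤ p := by
  have hpR : (0 : ℝ) < p := by exact_mod_cast hp.pos
  obtain ⟨j, k, hk0, hkl, h⟩ := Real.exists_int_int_abs_mul_sub_le ((n : ℝ) / p)
    (n := l - 1) (by omega)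
  obtain ⟨k', rfl⟩ := Int.eq_ofNat_of_zero_le hk0.le
  have hk0' : 0 < k' := by exact_mod_cast hk0
  have hkl' : k' ≤ l - 1 := by exact_mod_cast hkl
  refine ⟨k', j, hk0', by omega, ?_, ?_⟩
  · intro h0
    have h1 : (p : ℤ) ∣ ((k' * n : ℕ) : ℤ) := ⟨j, by push_cast; linarith⟩
    have h2 : p ∣ k' * n := by exact_mod_cast h1
    rcases (Nat.Prime.dvd_mul hp).mp h2 with h3 | h3
    · exact absurd (Nat.le_of_dvd hk0' h3) (by omega)
    · exact absurd (Nat.le_of_dvd hn0 h3) (by omega)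
  · have e : ((k' : ℤ) : ℝ) * ((n : ℝ) / p) - j = (((k' : ℤ) * n - j * p : ℤ) : ℝ) / p := by
      push_cast
      field_simp
    rw [e, abs_div, abs_of_pos hpR, div_le_iff₀ hpR] at h
    have hl1 : (((l - 1 : ℕ) : ℝ) + 1) = l := by
      rw [Nat.cast_sub (by omega)]; push_cast; ring
    rw [hl1] at h
    have hlR : (0 : ℝ) < l := by exact_mod_cast (by omega : 0 < l)
    have h2 : (l : ℝ) * |(((k' : ℤ) * n - j * p : ℤ) : ℝ)| ≤ p := by
      calc (l : ℝ) * |(((k' : ℤ) * n - j * p : ℤ) : ℝ)| ≤ l * (1 / l * p) := by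
            exact mul_le_mul_of_nonneg_left h hlR.le
        _ = p := by field_simp
    exact_mod_cast h2

theorem R_step {p : ℕ} {f : ℕ → G} (H : Hyp p f) {l : ℕ} (hl : 3 ≤ l) (hlp : l < p)
    (ih : ∀ s : ℕ, 0 < s → s < l → R p f s) : R p f l := by
  have : Fact p.Prime := ⟨H.prime⟩
  intro x hx
  set n : ℕ := x.val with hn
  have hnp : n < p := ZMod.val_lt x
  have hn0 : 0 < n := Nat.pos_of_ne_zero ((ZMod.val_ne_zero x).mpr hx)
  have hnx : (n : ZMod p) = x := by rw [hn, ZMod.natCast_val, ZMod.cast_id]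
  obtain ⟨k, j, hk0, hkl, ht0, ht⟩ := dirichlet H.prime (by omega : 2 ≤ l) hlp hn0 hnp
  set t : ℤ := (k : ℤ) * n - j * p with htdef
  have hkx : (k : ZMod p) * x = (t : ZMod p) := by
    rw [htdef]; push_cast; rw [hnx, ZMod.natCast_self, mul_zero, sub_zero]
  have hpk : ¬ p ∣ k := fun h => absurd (Nat.le_of_dvd hk0 h) (by omega)
  rcases lt_or_gt_of_ne ht0 with hneg | hpos
  · -- negative remainder
    obtain ⟨m', hm'⟩ : ∃ m' : ℕ, t = -(m' : ℤ) := ⟨t.natAbs, by omega⟩
    have hm'0 : 0 < m' := by omega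
    have hlm : l * m' ≤ p := by
      rw [hm', abs_neg, abs_of_nonneg (by positivity)] at ht
      exact_mod_cast ht
    -- choose the power of two
    have hex : ∃ a : ℕ, p < l * (m' * 2 ^ a) := by
      refine ⟨p, ?_⟩
      have h1 : p < 2 ^ p := Nat.lt_two_pow_self
      have h2 : 1 * 2 ^ p ≤ l * m' * 2 ^ p := Nat.mul_le_mul_right _ (by nlinarith)
      calc p < 2 ^ p := h1
        _ ≤ l * m' * 2 ^ p := by linarith
        _ = l * (m' * 2 ^ p) := by ring
    classical
    set a := Nat.find hex with ha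
    have ha1 : p < l * (m' * 2 ^ a) := Nat.find_spec hex
    have ha0 : a ≠ 0 := by
      intro h
      rw [h] at ha1
      simp only [pow_zero, mul_one] at ha1
      omega
    obtain ⟨b, hb⟩ := Nat.exists_eq_succ_of_ne_zero ha0
    have hb1 : ¬ p < l * (m' * 2 ^ b) := Nat.find_min hex (by omega)
    set q := m' * 2 ^ a with hq
    have hq2 : l * q ≤ 2 * p := by
      have : l * q = 2 * (l * (m' * 2 ^ b)) := by
        rw [hq, hb, Nat.succ_eq_add_one, pow_succ]; ring
      omega
    have hq0 : 0 < q := Nat.mul_pos hm'0 (by positivity)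
    have hqp : q < p := by nlinarith
    set v := p / q with hv
    have hv1 : v * q ≤ p := Nat.div_mul_le_self p q
    have hv2 : p < (v + 1) * q := by
      have := Nat.lt_div_mul_add (a := p) hq0
      rw [← hv] at this
      linarith
    have hvq : v * q ≠ p := by
      intro h
      have hd : q ∣ p := ⟨v, by rw [← h]; ring⟩
      rcases (Nat.dvd_prime H.prime).mp hd with h1 | h1
      · rw [h1] at ha1; omega
      · omega
    have hvl : v < l := by
      by_contra hcon
      have : l * q ≤ v * q := Nat.mul_le_mul_right _ (by omega)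
      omega
    have hv0 : 0 < v := Nat.div_pos hqp.le hq0
    have hpv : ¬ p ∣ v := fun h => absurd (Nat.le_of_dvd hv0 h) (by omega)
    have hp2 : ¬ p ∣ 2 := fun h => absurd (Nat.le_of_dvd (by norm_num) h) (by omega)
    obtain ⟨R2, hp2a⟩ := R_pow H (R_two H) hp2 a
    have hs1 : R p f (v * 2 ^ a) := R_mul H (ih v hv0 hvl) R2 hpv hp2a
    have hs1p : ¬ p ∣ v * 2 ^ a := fun h => by
      rcases (Nat.Prime.dvd_mul H.prime).mp h with h | h
      · exact hpv h
      · exact hp2a h
    have hs2 : R p f (v * 2 ^ a * k) := R_mul H hs1 (ih k hk0 hkl) hs1p hpk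
    have hs2p : ¬ p ∣ v * 2 ^ a * k := fun h => by
      rcases (Nat.Prime.dvd_mul H.prime).mp h with h | h
      · exact hs1p h
      · exact hpk h
    have hlt : v * q < p := lt_of_le_of_ne hv1 hvq
    refine step_of H (l := l) (s := v * 2 ^ a * k) (m := p - v * q) (by omega) hlp hs2 hs2p
      (by omega) ?_ ?_ hx ?_
    · have h1 : p - v * q < q := by
        have : (v + 1) * q = v * q + q := by ring
        omega
      calc l * (p - v * q) < l * q := Nat.mul_lt_mul_of_pos_left h1 (by omega)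
        _ ≤ 2 * p := hq2
    · have : 0 < v * q := Nat.mul_pos hv0 hq0
      omega
    · rw [Nat.cast_sub hlt.le, ZMod.natCast_self, zero_sub]
      push_cast
      rw [mul_assoc, hkx, hm', hq]
      push_cast
      ring
  · -- positive remainder
    obtain ⟨m', hm'⟩ : ∃ m' : ℕ, t = (m' : ℤ) := ⟨t.natAbs, by omega⟩
    have hm'0 : 0 < m' := by omega
    have hlm : l * m' ≤ p := by
      rw [hm', abs_of_nonneg (by positivity)] at ht
      exact_mod_cast ht
    refine step_of H (l := l) (s := k) (m := m') (by omega) hlp (ih k hk0 hkl) hpk hm'0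
      (by omega) (by nlinarith) hx ?_
    rw [hkx, hm']
    push_cast
    rfl

/-- Rigidity: `f` is additive on classes. -/
theorem R_all {p : ℕ} {f : ℕ → G} (H : Hyp p f) :
    ∀ l : ℕ, 0 < l → l < p → R p f l := by
  intro l
  induction l using Nat.strong_induction_on with
  | _ l ih =>
    intro hl0 hlp
    rcases Nat.lt_or_ge l 3 with h | h
    · interval_cases l
      · exact R_one H
      · exact R_two H
    · exact R_step H h hlp (fun s hs0 hsl => ih s hsl hs0 (by omega))

theorem rigid {p : ℕ} {f : ℕ → G} (H : Hyp p f) {x y : ZMod p} (hx : x ≠ 0) (hy : y ≠ 0) :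
    f (x * y).val = f x.val + f y.val := by
  have : Fact p.Prime := ⟨H.prime⟩
  have h := R_all H x.val (Nat.pos_of_ne_zero ((ZMod.val_ne_zero x).mpr hx)) (ZMod.val_lt x) y hy
  rwa [ZMod.natCast_val, ZMod.cast_id] at h

end Pool.Agent.LBS
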