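import Mathlib
import Pool.Agent.LBS.Main

namespace Pool.Agent.LBS

open ArithmeticFunction

/-- For a prime `p ≥ 7` there is an odd prime `l < 2 p`, `l ≠ p`, that is a square modulo `p`. -/
theorem exists_small_split {p : ℕ} (hp : p.Prime) (h7 : 7 ≤ p) :
    ∃ l : ℕ, l.Prime ∧ l < 2 * p ∧ l ≠ p ∧ IsSquare (l : ZMod p) := by
  have : Fact p.Prime := ⟨hp⟩
  have hodd : p % 2 = 1 := by
    rcases hp.eq_two_or_odd with h | h
    · omega
    · exact h
  have h4 : p % 4 = 1 ∨ p % 4 = 3 := by omega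
  rcases h4 with h | h
  · have h13 : 9 ≤ p := by omega
    obtain ⟨l, hl, hdvd⟩ := Nat.exists_prime_and_dvd (n := p - 4) (by omega)
    have : Fact l.Prime := ⟨hl⟩
    have hle : l ≤ p - 4 := Nat.le_of_dvd (by omega) hdvd
    have hl2 : l ≠ 2 := by
      rintro rfl
      omega
    refine ⟨l, hl, by omega, by omega, ?_⟩
    rw [ZMod.exists_sq_eq_prime_iff_of_mod_four_eq_one h hl2]
    have h0 : ((p - 4 : ℕ) : ZMod l) = 0 := (ZMod.natCast_eq_zero_iff _ _).mpr hdvd
    rw [Nat.cast_sub (by omega)] at h0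
    have h1 : (p : ZMod l) = 4 := by
      have := sub_eq_zero.mp h0
      rw [this]; norm_num
    rw [h1]
    exact ⟨2, by norm_num⟩
  · obtain ⟨l, hl, hdvd⟩ := Nat.exists_prime_and_dvd (n := p + 4) (by omega)
    have : Fact l.Prime := ⟨hl⟩
    have hle : l ≤ p + 4 := Nat.le_of_dvd (by omega) hdvd
    have hl2 : l ≠ 2 := by
      rintro rfl
      omega
    have hlp : l ≠ p := by
      rintro rfl
      have h1 : l ∣ 4 := (Nat.dvd_add_right (dvd_refl l)).mp hdvd
      have := Nat.le_of_dvd (by norm_num) h1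
      omega
    have hlodd : l % 2 = 1 := by
      rcases hl.eq_two_or_odd with h' | h'
      · exact absurd h' hl2
      · exact h'
    refine ⟨l, hl, by omega, hlp, ?_⟩
    have h0 : ((p + 4 : ℕ) : ZMod l) = 0 := (ZMod.natCast_eq_zero_iff _ _).mpr hdvd
    push_cast at h0
    have h1 : (p : ZMod l) = -1 * 2 ^ 2 := by
      have := eq_neg_of_add_eq_zero_left h0
      rw [this]; norm_num
    have hl4 : l % 4 = 1 ∨ l % 4 = 3 := by omega
    rcases hl4 with h' | h'
    · rw [← ZMod.exists_sq_eq_prime_iff_of_mod_four_eq_one h' (by omega : p ≠ 2)]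
      have h2 : IsSquare (-1 : ZMod l) := by
        rw [ZMod.exists_sq_eq_neg_one_iff]; omega
      obtain ⟨r, hr⟩ := h2
      exact ⟨r * 2, by rw [h1, hr]; ring⟩
    · rw [ZMod.exists_sq_eq_prime_iff_of_mod_four_eq_three h h' (Ne.symm hlp), h1]
      intro h2
      have h3 : IsSquare (-1 : ZMod l) := by
        obtain ⟨r, hr⟩ := h2
        have h20 : (2 : ZMod l) ≠ 0 := by
          intro h0'
          have : ((2 : ℕ) : ZMod l) = 0 := by exact_mod_cast h0'
          rw [ZMod.natCast_eq_zero_iff] at this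
          have := Nat.le_of_dvd (by norm_num) this
          have := hl.two_le
          omega
        refine ⟨r * (2 : ZMod l)⁻¹, ?_⟩
        have e : r * (2 : ZMod l)⁻¹ * (r * (2 : ZMod l)⁻¹) = (r * r) * ((2 : ZMod l)⁻¹ ^ 2) := by
          ring
        rw [e, ← hr, mul_assoc, ← mul_pow, mul_inv_cancel₀ h20, one_pow, mul_one]
      rw [ZMod.exists_sq_eq_neg_one_iff] at h3
      exact h3 h'

/-- the parity of the number of prime factors is not constant on a class below `2 p ^ 2`. -/
theorem not_const {p : ℕ} (hp : p.Prime) (h7 : 7 ≤ p) {a : ℕ} (ha : ¬ p ∣ a) (c : ZMod 2) :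
    ¬ ∀ n : ℕ, 0 < n → n < 2 * p ^ 2 → n ≡ a [MOD p] → ((cardFactors n : ℕ) : ZMod 2) = c := by
  intro hc
  have : Fact p.Prime := ⟨hp⟩
  have hmul : ∀ m n : ℕ, m ≠ 0 → n ≠ 0 →
      ((cardFactors (m * n) : ℕ) : ZMod 2) = (cardFactors m : ℕ) + (cardFactors n : ℕ) := by
    intro m n hm hn
    rw [cardFactors_mul hm hn]
    push_cast
    rfl
  have H : Hyp p (fun n => ((cardFactors n : ℕ) : ZMod 2)) :=
    { prime := hp
      odd := by omega
      mul := hmul
      per := fun s h1 h2 => per_of_const (f := fun n => ((cardFactors n : ℕ) : ZMod 2)) hp hmul ha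
        hc s h1 h2 }
  obtain ⟨l, hl, hl2, hlp, hsq⟩ := exists_small_split hp h7
  obtain ⟨r, hr⟩ := hsq
  have hpl : ¬ p ∣ l := by
    intro h
    rcases (Nat.dvd_prime hl).mp h with h1 | h1
    · exact hp.one_lt.ne' h1
    · exact hlp h1.symm
  have hl0 : (l : ZMod p) ≠ 0 := by
    intro h
    rw [ZMod.natCast_eq_zero_iff] at h
    exact hpl h
  have hr0 : r ≠ 0 := by
    rintro rfl
    rw [mul_zero] at hr
    exact hl0 hr
  have h1 := rigid H hr0 hr0
  have h2 := eq_val H hl2 hpl
  have h3 : ∀ z : ZMod 2, z + z = 0 := by decide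
  rw [h3] at h1
  rw [hr] at h2
  have h4 : ((cardFactors l : ℕ) : ZMod 2) = 0 := h2.trans h1
  rw [cardFactors_apply_prime hl] at h4
  exact absurd h4 (by decide)

theorem main {p : ℕ} (hp : p.Prime) {a : ℕ} (ha : ¬ p ∣ a) :
    (∃ n : ℕ, 0 < n ∧ n < 2 * p ^ 2 ∧ n ≡ a [MOD p] ∧ Odd (cardFactors n)) ∧
    (∃ n : ℕ, 0 < n ∧ n < 2 * p ^ 2 ∧ n ≡ a [MOD p] ∧ Even (cardFactors n)) := by
  rcases Nat.lt_or_ge p 7 with h | h
  · have h2 := hp.two_le
    have hs : ∀ (n r : ℕ), n ≡ r [MOD p] → a % p = r → n ≡ a [MOD p] := by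
      intro n r h1 h3
      have h4 : a ≡ r [MOD p] := by
        rw [← h3]
        exact (Nat.mod_modEq a p).symm
      exact h1.trans h4.symm
    have har : a % p ≠ 0 := fun h' => ha (Nat.dvd_of_mod_eq_zero h')
    have hap : a % p < p := Nat.mod_lt _ (by omega)
    have o2 : cardFactors 2 = 1 := cardFactors_apply_prime (by norm_num)
    have o3 : cardFactors 3 = 1 := cardFactors_apply_prime (by norm_num)
    have o7 : cardFactors 7 = 1 := cardFactors_apply_prime (by norm_num)
    have o11 : cardFactors 11 = 1 := cardFactors_apply_prime (by norm_num)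
    have o19 : cardFactors 19 = 1 := cardFactors_apply_prime (by norm_num)
    have e1 : cardFactors 1 = 0 := cardFactors_one
    have e4 : cardFactors 4 = 2 := by
      rw [show (4 : ℕ) = 2 * 2 from rfl, cardFactors_mul (by norm_num) (by norm_num), o2]
    have e14 : cardFactors 14 = 2 := by
      rw [show (14 : ℕ) = 2 * 7 from rfl, cardFactors_mul (by norm_num) (by norm_num), o2, o7]
    have e22 : cardFactors 22 = 2 := by
      rw [show (22 : ℕ) = 2 * 11 from rfl, cardFactors_mul (by norm_num) (by norm_num), o2, o11]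
    have e33 : cardFactors 33 = 2 := by
      rw [show (33 : ℕ) = 3 * 11 from rfl, cardFactors_mul (by norm_num) (by norm_num), o3, o11]
    have hne4 : p ≠ 4 := by rintro rfl; revert hp; norm_num
    have hne6 : p ≠ 6 := by rintro rfl; revert hp; norm_num
    have hcases : p = 2 ∨ p = 3 ∨ p = 5 := by omega
    rcases hcases with rfl | rfl | rfl
    · have hr : a % 2 = 1 := by omega
      exact ⟨⟨3, by norm_num, by norm_num, hs 3 1 (by decide) hr, by rw [o3]; decide⟩,
        ⟨1, by norm_num, by norm_num, hs 1 1 (by decide) hr, by rw [e1]; decide⟩⟩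
    · have hr : a % 3 = 1 ∨ a % 3 = 2 := by omega
      rcases hr with hr | hr
      · exact ⟨⟨7, by norm_num, by norm_num, hs 7 1 (by decide) hr, by rw [o7]; decide⟩,
          ⟨1, by norm_num, by norm_num, hs 1 1 (by decide) hr, by rw [e1]; decide⟩⟩
      · exact ⟨⟨2, by norm_num, by norm_num, hs 2 2 (by decide) hr, by rw [o2]; decide⟩,
          ⟨14, by norm_num, by norm_num, hs 14 2 (by decide) hr, by rw [e14]; decide⟩⟩
    · have hr : a % 5 = 1 ∨ a % 5 = 2 ∨ a % 5 = 3 ∨ a % 5 = 4 := by omega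
      rcases hr with hr | hr | hr | hr
      · exact ⟨⟨11, by norm_num, by norm_num, hs 11 1 (by decide) hr, by rw [o11]; decide⟩,
          ⟨1, by norm_num, by norm_num, hs 1 1 (by decide) hr, by rw [e1]; decide⟩⟩
      · exact ⟨⟨2, by norm_num, by norm_num, hs 2 2 (by decide) hr, by rw [o2]; decide⟩,
          ⟨22, by norm_num, by norm_num, hs 22 2 (by decide) hr, by rw [e22]; decide⟩⟩
      · exact ⟨⟨3, by norm_num, by norm_num, hs 3 3 (by decide) hr, by rw [o3]; decide⟩,
          ⟨33, by norm_num, by norm_num, hs 33 3 (by decide) hr, by rw [e33]; decide⟩⟩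
      · exact ⟨⟨19, by norm_num, by norm_num, hs 19 4 (by decide) hr, by rw [o19]; decide⟩,
          ⟨4, by norm_num, by norm_num, hs 4 4 (by decide) hr, by rw [e4]; decide⟩⟩
  · constructor
    · by_contra hcon
      push Not at hcon
      refine not_const hp h ha 0 (fun n h0 h1 h2 => ?_)
      have h3 := hcon n h0 h1 h2
      rw [Nat.not_odd_iff_even] at h3
      exact (ZMod.natCast_eq_zero_iff_even).mpr h3
    · by_contra hcon
      push Not at hcon
      refine not_const hp h ha 1 (fun n h0 h1 h2 => ?_)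
      have h3 := hcon n h0 h1 h2
      rw [Nat.not_even_iff_odd] at h3
      exact (ZMod.natCast_eq_one_iff_odd).mpr h3

end Pool.Agent.LBS
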