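import Mathlib
import Pool.Agent.LBS.S2

/-!
The sieve with at most two forbidden classes, small primes included.
-/

namespace Pool.Agent.LBS

open Finset hiding dens

theorem small_residue (R : ℕ → Finset ℕ) (y : ℕ)
    (hR : ∀ q : ℕ, q.Prime → q ≤ y → R q ⊂ range q) :
    ∃ i : ℕ, ∀ q : ℕ, q.Prime → q ≤ 1024 → q ≤ y → i % q ∉ R q := by
  classical
  have hc : ∀ q : ℕ, ∃ c : ℕ, q.Prime → q ≤ y → c < q ∧ c ∉ R q := by
    intro q
    by_cases h : q.Prime ∧ q ≤ y
    · obtain ⟨c, hc1, hc2⟩ := Finset.exists_of_ssubset (hR q h.1 h.2)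
      exact ⟨c, fun _ _ => ⟨mem_range.1 hc1, hc2⟩⟩
    · exact ⟨0, fun h1 h2 => absurd ⟨h1, h2⟩ h⟩
  choose c hc using hc
  obtain ⟨k, hk⟩ := Nat.chineseRemainderOfFinset c id (Nat.primesLE 1024)
    (fun q hq => (Nat.mem_primesLE.1 hq).2.ne_zero)
    (fun q hq q' hq' hne => (Nat.coprime_primes (Nat.mem_primesLE.1 hq).2
      (Nat.mem_primesLE.1 hq').2).2 hne)
  refine ⟨k, fun q hq h1 h2 => ?_⟩
  have h3 := hk q (Nat.mem_primesLE.2 ⟨h1, hq⟩)
  obtain ⟨h4, h5⟩ := hc q hq h2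
  simp only [id] at h3
  have h6 : k % q = c q := by
    unfold Nat.ModEq at h3
    rw [h3, Nat.mod_eq_of_lt h4]
  rw [h6]
  exact h5

theorem exists_M (K : ℕ) : ∃ M : ℕ, 0 < M ∧ (∀ q : ℕ, q.Prime → q ≤ K → q ∣ M) ∧
    (∀ q : ℕ, q.Prime → K < q → ¬ q ∣ M) := by
  refine ⟨∏ q ∈ Nat.primesLE K, q, Finset.prod_pos fun q hq => (Nat.mem_primesLE.1 hq).2.pos,
    fun q hq h => Finset.dvd_prod_of_mem (fun q => q) (Nat.mem_primesLE.2 ⟨h, hq⟩), ?_⟩
  intro q hq h hd
  obtain ⟨r, hr, hqr⟩ := (Prime.dvd_finsetProd_iff hq.prime _).1 hd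
  have h1 := Nat.mem_primesLE.1 hr
  have h2 := (Nat.prime_dvd_prime_iff_eq hq h1.2).1 hqr
  omega

theorem sieve_two : ∃ B : ℕ, 1 ≤ B ∧ ∀ y : ℕ, 2 ≤ y → ∀ R : ℕ → Finset ℕ,
    (∀ q : ℕ, q.Prime → q ≤ y → R q ⊂ range q ∧ (R q).card ≤ 2) →
    ∀ N : ℕ, ∃ t : ℕ, N < t ∧ t ≤ N + y ^ B ∧ ∀ q : ℕ, q.Prime → q ≤ y → t % q ∉ R q := by
  classical
  obtain ⟨M, hM0, hMd, hMn⟩ := exists_M 1024
  refine ⟨160 + 2 * M, by omega, fun y hy R hR N => ?_⟩
  obtain ⟨i0, hi0⟩ := small_residue R y (fun q hq h => (hR q hq h).1)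
  -- normalise
  set t0 : ℕ := N + 1 + (i0 + (M - 1) * (N + 1)) % M with ht0
  have ht0N : N < t0 := by omega
  have ht0M : t0 ≤ N + M := by
    have := Nat.mod_lt (i0 + (M - 1) * (N + 1)) hM0
    omega
  have ht0q : ∀ q : ℕ, q.Prime → q ≤ 1024 → q ≤ y → t0 % q ∉ R q := by
    intro q hq h1 h2
    have e1 : t0 ≡ i0 [MOD M] := by
      have e2 : t0 ≡ N + 1 + (i0 + (M - 1) * (N + 1)) [MOD M] :=
        Nat.ModEq.add_left _ (Nat.mod_modEq _ _)
      have e3 : N + 1 + (i0 + (M - 1) * (N + 1)) = i0 + M * (N + 1) := by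
        obtain ⟨M', rfl⟩ : ∃ M', M = M' + 1 := ⟨M - 1, by omega⟩
        simp only [Nat.add_sub_cancel]
        ring
      rw [e3] at e2
      refine e2.trans ?_
      unfold Nat.ModEq
      rw [Nat.add_mul_mod_self_left]
    have e4 : t0 % q = i0 % q := e1.of_dvd (hMd q hq h1)
    rw [e4]
    exact hi0 q hq h1 h2
  have hpow : 2 * M ≤ y ^ (2 * M) := by
    have h1 : 2 * M < 2 ^ (2 * M) := Nat.lt_two_pow_self
    have h2 : 2 ^ (2 * M) ≤ y ^ (2 * M) := Nat.pow_le_pow_left hy _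
    omega
  have hy0 : 0 < y := by omega
  by_cases hy2 : y ≤ 1024
  · refine ⟨t0, ht0N, ?_, fun q hq h => ht0q q hq (by omega) h⟩
    have h1 : y ^ (2 * M) ≤ y ^ (160 + 2 * M) := Nat.pow_le_pow_right hy0 (by omega)
    omega
  · -- large y
    have hex : ∃ m : ℕ, y ≤ 2 ^ (10 * 2 ^ m) := by
      refine ⟨y, ?_⟩
      have h1 : y < 2 ^ y := Nat.lt_two_pow_self
      have h2 : y ≤ 10 * 2 ^ y := by omega
      have h3 : 2 ^ y ≤ 2 ^ (10 * 2 ^ y) := Nat.pow_le_pow_right (by norm_num) h2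
      omega
    set m := Nat.find hex with hm
    have hm1 : y ≤ 2 ^ (10 * 2 ^ m) := Nat.find_spec hex
    have hm0 : m ≠ 0 := by
      intro h0
      rw [h0] at hm1
      norm_num at hm1
      omega
    obtain ⟨m', hm'⟩ := Nat.exists_eq_succ_of_ne_zero hm0
    have hm2 : ¬ y ≤ 2 ^ (10 * 2 ^ m') := Nat.find_min hex (by omega)
    have hH : 2 ^ (800 * 2 ^ m) ≤ y ^ 160 := by
      have e1 : 800 * 2 ^ m = (10 * 2 ^ m') * 160 := by
        rw [hm', Nat.succ_eq_add_one, pow_succ]; ring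
      rw [e1, pow_mul]
      exact Nat.pow_le_pow_left (by omega) _
    set R' : ℕ → Finset ℕ := fun q => if q.Prime ∧ 1024 < q ∧ q ≤ y then
      (range q).filter (fun u => (t0 + M * u) % q ∈ R q) else ∅ with hR'
    have hAdm : Adm R' := by
      intro q hq h1024
      by_cases hqy : q ≤ y
      · have e : R' q = (range q).filter (fun u => (t0 + M * u) % q ∈ R q) := by
          rw [hR']; simp only [hq, h1024, hqy, and_self, if_true]
        rw [e]
        refine ⟨Finset.filter_subset _ _, ?_⟩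
        refine le_trans ?_ (hR q hq hqy).2
        apply Finset.card_le_card_of_injOn (fun u => (t0 + M * u) % q)
        · intro u hu
          exact (Finset.mem_filter.1 hu).2
        · intro u hu v hv huv
          have hu1 : u < q := mem_range.1 (Finset.mem_filter.1 hu).1
          have hv1 : v < q := mem_range.1 (Finset.mem_filter.1 hv).1
          have h1 : t0 + M * u ≡ t0 + M * v [MOD q] := huv
          have h2 : M * u ≡ M * v [MOD q] := Nat.ModEq.add_left_cancel' _ h1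
          have hcop : Nat.Coprime q M := (Nat.Prime.coprime_iff_not_dvd hq).2 (hMn q hq h1024)
          have h3 : u ≡ v [MOD q] := Nat.ModEq.cancel_left_of_coprime hcop h2
          unfold Nat.ModEq at h3
          rwa [Nat.mod_eq_of_lt hu1, Nat.mod_eq_of_lt hv1] at h3
      · have e : R' q = ∅ := by
          rw [hR']; simp only [hqy, and_false, if_false]
        rw [e]
        exact ⟨Finset.empty_subset _, by simp⟩
    obtain ⟨u, hu0, huH, hu⟩ := exists_sifted hAdm m
    refine ⟨t0 + M * u, by omega, ?_, ?_⟩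
    · have h1 : M * u ≤ M * y ^ 160 := Nat.mul_le_mul_left _ (huH.trans hH)
      have h2 : 1 ≤ y ^ 160 := Nat.one_le_pow _ _ hy0
      have h3 : M + M * y ^ 160 ≤ 2 * M * y ^ 160 := by nlinarith
      have h4 : 2 * M * y ^ 160 ≤ y ^ (2 * M) * y ^ 160 := Nat.mul_le_mul_right _ hpow
      have h5 : y ^ (160 + 2 * M) = y ^ (2 * M) * y ^ 160 := by rw [pow_add, mul_comm]
      omega
    · intro q hq hqy
      by_cases h1024 : q ≤ 1024
      · have e1 : (t0 + M * u) % q = t0 % q := by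
          obtain ⟨c, hc⟩ := hMd q hq h1024
          rw [hc, mul_assoc, Nat.add_mul_mod_self_left]
        rw [e1]
        exact ht0q q hq h1024 hqy
      · have h1 := hu q hq (by omega) (hqy.trans hm1)
        have e : R' q = (range q).filter (fun u => (t0 + M * u) % q ∈ R q) := by
          rw [hR']; simp only [hq, (by omega : 1024 < q), hqy, and_self, if_true]
        rw [e] at h1
        intro hmem
        apply h1
        rw [Finset.mem_filter]
        refine ⟨mem_range.2 (Nat.mod_lt _ hq.pos), ?_⟩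
        have e2 : (t0 + M * (u % q)) % q = (t0 + M * u) % q := by
          have : t0 + M * (u % q) ≡ t0 + M * u [MOD q] :=
            Nat.ModEq.add_left _ (Nat.ModEq.mul_left _ (Nat.mod_modEq u q))
          exact this
        rw [e2]
        exact hmem

end Pool.Agent.LBS
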