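import Mathlib
import Pool.Agent.LBS.S3

/-!
Two linear forms free of small prime factors, and rough representatives of residue classes.
-/

namespace Pool.Agent.LBS

open Finset hiding dens

/-- `n` is positive and all its prime factors exceed `y`. -/
def Rgh (y n : ℕ) : Prop := 0 < n ∧ ∀ q : ℕ, q.Prime → q ∣ n → y < q

theorem Rgh.mul {y m n : ℕ} (hm : Rgh y m) (hn : Rgh y n) : Rgh y (m * n) := by
  refine ⟨Nat.mul_pos hm.1 hn.1, fun q hq hd => ?_⟩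
  rcases hq.dvd_mul.1 hd with h | h
  · exact hm.2 q hq h
  · exact hn.2 q hq h

theorem Rgh.one (y : ℕ) : Rgh y 1 :=
  ⟨one_pos, fun q hq hd => absurd (Nat.dvd_one.1 hd) hq.one_lt.ne'⟩

theorem Rgh.pow {y m : ℕ} (hm : Rgh y m) (a : ℕ) : Rgh y (m ^ a) := by
  induction a with
  | zero => rw [pow_zero]; exact Rgh.one y
  | succ a ih => rw [pow_succ]; exact ih.mul hm

theorem Rgh.of_prime {y q : ℕ} (hq : q.Prime) (h : y < q) : Rgh y q :=
  ⟨hq.pos, fun r hr hd => by rw [(Nat.prime_dvd_prime_iff_eq hr hq).1 hd]; exact h⟩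

theorem Rgh.odd {y n : ℕ} (hy : 2 ≤ y) (h : Rgh y n) : n % 2 = 1 := by
  by_contra hcon
  have h1 : 2 ∣ n := Nat.dvd_of_mod_eq_zero (by omega)
  have := h.2 2 Nat.prime_two h1
  omega

/-- what the sieve gives -/
def SieveB (B : ℕ) : Prop := 1 ≤ B ∧ ∀ y : ℕ, 2 ≤ y → ∀ R : ℕ → Finset ℕ,
    (∀ q : ℕ, q.Prime → q ≤ y → R q ⊂ range q ∧ (R q).card ≤ 2) →
    ∀ N : ℕ, ∃ t : ℕ, N < t ∧ t ≤ N + y ^ B ∧ ∀ q : ℕ, q.Prime → q ≤ y → t % q ∉ R q

theorem lin_card {q : ℕ} (hq : q.Prime) {a b : ℤ} (h : ¬ ((q : ℤ) ∣ a ∧ (q : ℤ) ∣ b)) :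
    ((range q).filter (fun t : ℕ => (q : ℤ) ∣ b + a * t)).card ≤ 1 := by
  rw [Finset.card_le_one]
  intro t ht u hu
  obtain ⟨ht1, ht2⟩ := Finset.mem_filter.1 ht
  obtain ⟨hu1, hu2⟩ := Finset.mem_filter.1 hu
  rw [mem_range] at ht1 hu1
  have hd : (q : ℤ) ∣ a * ((t : ℤ) - u) := by
    have := dvd_sub ht2 hu2
    have e : b + a * (t : ℤ) - (b + a * (u : ℤ)) = a * ((t : ℤ) - u) := by ring
    rwa [e] at this
  rcases (Nat.prime_iff_prime_int.1 hq).dvd_or_dvd hd with h1 | h1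
  · exfalso
    apply h
    refine ⟨h1, ?_⟩
    have := dvd_sub ht2 (Dvd.dvd.mul_right h1 (t : ℤ))
    have e : b + a * (t : ℤ) - a * (t : ℤ) = b := by ring
    rwa [e] at this
  · have h2 : (t : ℤ) - u = 0 := by
      apply Int.eq_zero_of_abs_lt_dvd h1
      rw [abs_lt]
      constructor <;> omega
    omega

theorem sieve_forms {B : ℕ} (hB : SieveB B) {y : ℕ} (hy : 2 ≤ y) (a1 b1 a2 b2 : ℤ)
    (h1 : ∀ q : ℕ, q.Prime → q ≤ y → ¬ ((q : ℤ) ∣ a1 ∧ (q : ℤ) ∣ b1))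
    (h2 : ∀ q : ℕ, q.Prime → q ≤ y → ¬ ((q : ℤ) ∣ a2 ∧ (q : ℤ) ∣ b2))
    (h3 : ∃ t : ℕ, t < 2 ∧ ¬ (2 : ℤ) ∣ b1 + a1 * t ∧ ¬ (2 : ℤ) ∣ b2 + a2 * t) :
    ∃ t : ℕ, 0 < t ∧ t ≤ y ^ B ∧ ∀ q : ℕ, q.Prime → q ≤ y →
      ¬ (q : ℤ) ∣ b1 + a1 * t ∧ ¬ (q : ℤ) ∣ b2 + a2 * t := by
  classical
  set R : ℕ → Finset ℕ := fun q =>
    (range q).filter (fun t : ℕ => (q : ℤ) ∣ b1 + a1 * t ∨ (q : ℤ) ∣ b2 + a2 * t) with hR
  have hcard : ∀ q : ℕ, q.Prime → q ≤ y → (R q).card ≤ 2 := by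
    intro q hq hqy
    have e : R q = (range q).filter (fun t : ℕ => (q : ℤ) ∣ b1 + a1 * t) ∪
        (range q).filter (fun t : ℕ => (q : ℤ) ∣ b2 + a2 * t) := by
      rw [hR]; exact Finset.filter_or _ _ _
    rw [e]
    have c1 := lin_card hq (h1 q hq hqy)
    have c2 := lin_card hq (h2 q hq hqy)
    exact (Finset.card_union_le _ _).trans (by omega)
  obtain ⟨t, ht0, htB, ht⟩ := hB.2 y hy R (fun q hq hqy => ⟨by
    refine Finset.ssubset_iff_subset_ne.2 ⟨Finset.filter_subset _ _, fun heq => ?_⟩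
    have hc := hcard q hq hqy
    rw [heq, card_range] at hc
    have hq2 : q = 2 := by have := hq.two_le; omega
    subst hq2
    obtain ⟨t, ht, h4, h5⟩ := h3
    have h6 : t ∈ R 2 := by rw [heq]; exact mem_range.2 ht
    have h7 := (Finset.mem_filter.1 h6).2
    rcases h7 with h7 | h7
    · exact h4 (by exact_mod_cast h7)
    · exact h5 (by exact_mod_cast h7), hcard q hq hqy⟩) 0
  refine ⟨t, ht0, by omega, fun q hq hqy => ?_⟩
  have h4 := ht q hq hqy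
  have h5 : ∀ a b : ℤ, (q : ℤ) ∣ b + a * t → (q : ℤ) ∣ b + a * ((t % q : ℕ) : ℤ) := by
    intro a b hd
    have e : b + a * ((t % q : ℕ) : ℤ) = b + a * t - q * (a * ((t / q : ℕ) : ℤ)) := by
      have : (t : ℤ) = q * ((t / q : ℕ) : ℤ) + ((t % q : ℕ) : ℤ) := by
        exact_mod_cast (Nat.div_add_mod t q).symm
      rw [this]; ring
    rw [e]
    exact dvd_sub hd (Dvd.intro _ rfl)
  have h6 : t % q ∈ range q := mem_range.2 (Nat.mod_lt _ hq.pos)
  constructor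
  · intro hd
    exact h4 (Finset.mem_filter.2 ⟨h6, Or.inl (h5 _ _ hd)⟩)
  · intro hd
    exact h4 (Finset.mem_filter.2 ⟨h6, Or.inr (h5 _ _ hd)⟩)

/-- every residue class modulo `p` has a rough representative below `(y ^ B + 1) p`. -/
theorem rough_rep {B : ℕ} (hB : SieveB B) {y p : ℕ} (hy : 2 ≤ y) (hp : p.Prime) (hyp : y < p)
    (c : ℕ) : ∃ m : ℕ, Rgh y m ∧ m ≡ c [MOD p] ∧ m < (y ^ B + 1) * p := by
  have hpodd : p % 2 = 1 := by
    rcases hp.eq_two_or_odd with h | h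
    · omega
    · exact h
  obtain ⟨c0, hc0⟩ : ∃ c0 : ℕ, c0 = c % p := ⟨_, rfl⟩
  obtain ⟨t, ht0, htB, ht⟩ := sieve_forms hB hy (p : ℤ) (c0 : ℤ) 0 1
    (fun q hq hqy h => by
      have h1 : q ∣ p := by exact_mod_cast h.1
      have := (Nat.prime_dvd_prime_iff_eq hq hp).1 h1
      omega)
    (fun q hq hqy h => by
      have h1 : q ∣ 1 := by exact_mod_cast h.2
      exact hq.one_lt.ne' (Nat.dvd_one.1 h1))
    (by
      rcases Nat.even_or_odd c0 with h | h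
      · refine ⟨1, by norm_num, ?_, by norm_num⟩
        obtain ⟨r, hr⟩ := h
        intro hd
        obtain ⟨s, hs⟩ := hd
        push_cast at hs
        omega
      · refine ⟨0, by norm_num, ?_, by norm_num⟩
        obtain ⟨r, hr⟩ := h
        intro hd
        obtain ⟨s, hs⟩ := hd
        push_cast at hs
        omega)
  have hlt : c0 < p := by rw [hc0]; exact Nat.mod_lt _ hp.pos
  refine ⟨c0 + p * t, ⟨?_, ?_⟩, ?_, ?_⟩
  · have : 0 < p * t := Nat.mul_pos hp.pos ht0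
    omega
  · intro q hq hd
    by_contra hcon
    have h1 := (ht q hq (by omega)).1
    apply h1
    exact_mod_cast hd
  · unfold Nat.ModEq
    rw [Nat.add_mul_mod_self_left, hc0, Nat.mod_mod]
  · have : p * t ≤ p * y ^ B := Nat.mul_le_mul_left _ htB
    nlinarith

/-- factorisation into a smooth and a rough part. -/
theorem smooth_rough (y : ℕ) : ∀ k : ℕ, 0 < k → ∃ ks kr : ℕ, k = ks * kr ∧ 0 < ks ∧
    (∀ q : ℕ, q.Prime → q ∣ ks → q ≤ y) ∧ Rgh y kr := by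
  intro k
  induction k using Nat.strong_induction_on with
  | _ k ih =>
    intro hk
    by_cases h : ∃ q : ℕ, q.Prime ∧ q ∣ k ∧ q ≤ y
    · obtain ⟨q, hq, ⟨m, hm⟩, hqy⟩ := h
      have hm0 : 0 < m := by
        rcases Nat.eq_zero_or_pos m with h0 | h0
        · subst h0; omega
        · exact h0
      have hmk : m < k := by
        have := hq.two_le
        nlinarith
      obtain ⟨ks, kr, h1, h2, h3, h4⟩ := ih m hmk hm0
      refine ⟨q * ks, kr, by rw [hm, h1]; ring, Nat.mul_pos hq.pos h2, ?_, h4⟩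
      intro r hr hd
      rcases hr.dvd_mul.1 hd with h5 | h5
      · rw [(Nat.prime_dvd_prime_iff_eq hr hq).1 h5]; exact hqy
      · exact h3 r hr h5
    · refine ⟨1, k, by ring, one_pos, ?_, hk, ?_⟩
      · intro q hq hd
        exact absurd (Nat.dvd_one.1 hd) hq.one_lt.ne'
      · intro q hq hd
        by_contra hcon
        exact h ⟨q, hq, hd, by omega⟩

end Pool.Agent.LBS
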