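import Mathlib
import Pool.Agent.LBS.Main
import Pool.Agent.LBS.Forms

/-!
The key lemma of the rough rigidity argument.
-/

set_option maxHeartbeats 4000000

namespace Pool.Agent.LBS

open Finset hiding dens

theorem scale {u w r : ℕ} (hu : 0 < u) (hw : 0 < w) (hr : 2 ≤ r) :
    ∃ α β : ℕ, u * r ^ α < w * r ^ β ∧ w * r ^ β ≤ r * (u * r ^ α) ∧ (α = 0 ∨ β = 0) := by
  classical
  by_cases h : u < w
  · have hex : ∃ n : ℕ, w ≤ u * r ^ n := by
      refine ⟨w, ?_⟩
      have h1 : w < r ^ w := Nat.lt_pow_self hr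
      nlinarith
    set n := Nat.find hex with hn
    have h1 : w ≤ u * r ^ n := Nat.find_spec hex
    have h0 : n ≠ 0 := by
      intro h0
      rw [h0, pow_zero, mul_one] at h1
      omega
    obtain ⟨α, hα⟩ := Nat.exists_eq_succ_of_ne_zero h0
    have h2 : ¬ w ≤ u * r ^ α := Nat.find_min hex (by omega)
    refine ⟨α, 0, by rw [pow_zero, mul_one]; omega, ?_, Or.inr rfl⟩
    rw [pow_zero, mul_one]
    rw [hα, Nat.succ_eq_add_one, pow_succ] at h1
    calc w ≤ u * (r ^ α * r) := h1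
      _ = r * (u * r ^ α) := by ring
  · have hex : ∃ n : ℕ, u < w * r ^ n := by
      refine ⟨u, ?_⟩
      have h1 : u < r ^ u := Nat.lt_pow_self hr
      nlinarith
    set n := Nat.find hex with hn
    have h1 : u < w * r ^ n := Nat.find_spec hex
    have h0 : n ≠ 0 := by
      intro h0
      rw [h0, pow_zero, mul_one] at h1
      omega
    obtain ⟨β, hβ⟩ := Nat.exists_eq_succ_of_ne_zero h0
    have h2 : ¬ u < w * r ^ β := Nat.find_min hex (by omega)
    refine ⟨0, n, by rw [pow_zero, mul_one]; exact h1, ?_, Or.inl rfl⟩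
    rw [pow_zero, mul_one, hβ, Nat.succ_eq_add_one, pow_succ]
    calc w * (r ^ β * r) = r * (w * r ^ β) := by ring
      _ ≤ r * u := Nat.mul_le_mul_left _ (by omega)

theorem dirichlet_coprime {p : ℕ} (hp : p.Prime) {D : ℕ} (hD : 1 ≤ D) (hDp : D + 1 < p) {n : ℕ}
    (hn : ¬ p ∣ n) : ∃ (k T : ℕ) (σ : ℤ), (σ = 1 ∨ σ = -1) ∧ 0 < k ∧ k ≤ D ∧ 0 < T ∧
      (D + 1) * T ≤ p ∧ Nat.Coprime k T ∧ (p : ℤ) ∣ (k : ℤ) * n - σ * T := by
  have hn0 : 0 < n % p := Nat.pos_of_ne_zero fun h => hn (Nat.dvd_of_mod_eq_zero h)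
  obtain ⟨k, j, hk0, hkD, ht0, ht⟩ := dirichlet hp (by omega : 2 ≤ D + 1) hDp hn0
    (Nat.mod_lt _ hp.pos)
  set t : ℤ := (k : ℤ) * ((n % p : ℕ) : ℤ) - j * p with htdef
  set T := t.natAbs with hT
  have hT0 : 0 < T := Int.natAbs_pos.2 ht0
  obtain ⟨σ, hσ, hσt⟩ : ∃ σ : ℤ, (σ = 1 ∨ σ = -1) ∧ t = σ * T := by
    rcases lt_or_gt_of_ne ht0 with h | h
    · exact ⟨-1, Or.inr rfl, by omega⟩
    · exact ⟨1, Or.inl rfl, by omega⟩
  have hTp : (D + 1) * T ≤ p := by
    rw [Int.abs_eq_natAbs, ← hT] at ht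
    exact_mod_cast ht
  have hdiv : (p : ℤ) ∣ (k : ℤ) * n - σ * T := by
    rw [← hσt, htdef]
    have e : (n : ℤ) = p * ((n / p : ℕ) : ℤ) + ((n % p : ℕ) : ℤ) := by
      exact_mod_cast (Nat.div_add_mod n p).symm
    refine ⟨(k : ℤ) * ((n / p : ℕ) : ℤ) + j, ?_⟩
    linear_combination (k : ℤ) * e
  set g := Nat.gcd k T with hg
  have hg0 : 0 < g := Nat.gcd_pos_of_pos_left _ hk0
  obtain ⟨k1, hk1⟩ := Nat.gcd_dvd_left k T
  obtain ⟨T1, hT1⟩ := Nat.gcd_dvd_right k T
  rw [← hg] at hk1 hT1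
  have hk10 : 0 < k1 := by
    rcases Nat.eq_zero_or_pos k1 with h | h
    · rw [h] at hk1; omega
    · exact h
  have hT10 : 0 < T1 := by
    rcases Nat.eq_zero_or_pos T1 with h | h
    · rw [h] at hT1; omega
    · exact h
  have hcop : Nat.Coprime k1 T1 := by
    have h1 : g * Nat.gcd k1 T1 = g * 1 := by
      rw [← Nat.gcd_mul_left, ← hk1, ← hT1, mul_one]
    exact Nat.eq_of_mul_eq_mul_left hg0 h1
  have hk1k : k1 ≤ k := by nlinarith
  have hT1T : T1 ≤ T := by nlinarith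
  refine ⟨k1, T1, σ, hσ, hk10, by omega, hT10, le_trans (Nat.mul_le_mul_left _ hT1T) hTp, hcop, ?_⟩
  have h2 : (p : ℤ) ∣ (g : ℤ) * ((k1 : ℤ) * n - σ * T1) := by
    have e : (g : ℤ) * ((k1 : ℤ) * n - σ * T1) = (k : ℤ) * n - σ * T := by
      rw [hk1, hT1]; push_cast; ring
    rw [e]; exact hdiv
  rcases (Nat.prime_iff_prime_int.1 hp).dvd_or_dvd h2 with h3 | h3
  · exfalso
    have h4 : p ∣ g := by exact_mod_cast h3
    have h5 : g ≤ k := Nat.le_of_dvd hk0 (Nat.gcd_dvd_left k T)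
    have := Nat.le_of_dvd hg0 h4
    omega
  · exact h3

theorem residue {ks q : ℕ} (hq : 0 < q) (hcop : Nat.Coprime ks q) (c σ : ℤ)
    (hσ : σ = 1 ∨ σ = -1) : ∃ r : ℕ, 0 < r ∧ r ≤ q ∧ (q : ℤ) ∣ c + σ * ks * r := by
  have h1 : IsCoprime (ks : ℤ) (q : ℤ) := Nat.isCoprime_iff_coprime.2 hcop
  obtain ⟨a, b, hab⟩ := h1
  have hqz : (0 : ℤ) < q := by exact_mod_cast hq
  have hσ2 : σ * σ = 1 := by rcases hσ with h | h <;> rw [h] <;> norm_num
  set z : ℤ := -(σ * c * a) with hz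
  have hz0 := Int.emod_nonneg z hqz.ne'
  have hz1 := Int.emod_lt_of_pos z hqz
  have key : ∀ r : ℤ, (q : ℤ) ∣ r - z → (q : ℤ) ∣ c + σ * ks * r := by
    intro r hr
    obtain ⟨m, hm⟩ := hr
    have e : r = z + q * m := by linarith
    refine ⟨b * c + σ * ks * m, ?_⟩
    rw [e, hz]
    have e2 : c + σ * ks * (-(σ * c * a) + q * m) =
        c - (σ * σ) * (c * (a * ks)) + q * (σ * ks * m) := by ring
    have e3 : a * (ks : ℤ) = 1 - b * q := by linarith
    rw [e2, hσ2, e3]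
    ring
  have hd : (q : ℤ) ∣ z % q - z := by
    have := Int.emod_add_mul_ediv z q
    exact ⟨-(z / q), by linarith⟩
  rcases hz0.eq_or_lt with h | h
  · refine ⟨q, hq, le_rfl, key q ?_⟩
    have : (q : ℤ) ∣ (q : ℤ) + (z % q - z) := (dvd_refl _).add hd
    rw [← h] at this
    simpa using this
  · obtain ⟨r, hr⟩ := Int.eq_ofNat_of_zero_le hz0
    refine ⟨r, by omega, by omega, ?_⟩
    rw [← hr]
    exact key _ hd

theorem prop_key {K T A C P S : Prop} (h1 : ¬ (K ∧ T)) (hP : ¬ P) (hS : ¬ S)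
    (h2 : (((¬ K ∧ ¬ T) ∨ P) ↔ ((S ∨ K) ∨ C)) ↔ (T ∨ A)) (h3 : ¬ (¬ A ∧ ¬ C)) :
    ¬ (A ↔ K) ∧ ¬ (C ↔ T) := by
  by_cases hK : K <;> by_cases hT : T <;> by_cases hA : A <;> by_cases hC : C <;> simp_all

theorem parity_forms {k T ks kr p r0 j0 α β j q r' : ℕ} {σ v0 : ℤ}
    (hk : k = ks * kr) (hkr : kr % 2 = 1) (hp : p % 2 = 1) (hr0 : r0 % 2 = 1)
    (hσ : σ = 1 ∨ σ = -1) (hj0 : j0 = 1 ∨ j0 = 2) (hj0a : j0 = 2 ↔ (k % 2 = 1 ∧ T % 2 = 1))
    (hcop : Nat.Coprime k T) (hj : j = j0 * r0 ^ α) (hq : q = T * r0 ^ β)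
    (hv0 : (j : ℤ) * p + σ * ks * r' = (q : ℤ) * v0) :
    ∃ t : ℕ, t < 2 ∧ ¬ (2 : ℤ) ∣ v0 + σ * ks * t ∧ ¬ (2 : ℤ) ∣ (r' : ℤ) + (q : ℤ) * t := by
  have oσ : ¬ Even σ := by rcases hσ with h | h <;> rw [h] <;> decide
  have op : ¬ Even (p : ℤ) := by
    rw [Int.even_coe_nat, Nat.even_iff]; omega
  have okr : ¬ Even (kr : ℤ) := by
    rw [Int.even_coe_nat, Nat.even_iff]; omega
  have or0 : ∀ a : ℕ, ¬ Even (((r0 ^ a : ℕ)) : ℤ) := by
    intro a
    rw [Int.even_coe_nat, Nat.not_even_iff_odd]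
    exact Odd.pow (Nat.odd_iff.2 hr0)
  have ek : Even (k : ℤ) ↔ Even (ks : ℤ) := by
    have : (k : ℤ) = ks * kr := by exact_mod_cast hk
    rw [this, Int.even_mul]; tauto
  have eq' : Even (q : ℤ) ↔ Even (T : ℤ) := by
    have : (q : ℤ) = T * ((r0 ^ β : ℕ) : ℤ) := by exact_mod_cast hq
    have h2 := or0 β
    rw [this, Int.even_mul]; tauto
  have ej : Even (j : ℤ) ↔ j0 = 2 := by
    have : (j : ℤ) = j0 * ((r0 ^ α : ℕ) : ℤ) := by exact_mod_cast hj
    have h2 := or0 α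
    rw [this, Int.even_mul]
    rcases hj0 with h | h
    · rw [h]; simp only [Nat.cast_one]
      constructor
      · rintro (h3 | h3)
        · exact absurd h3 (by decide)
        · exact absurd h3 h2
      · intro h3; omega
    · rw [h]; simp only [Nat.cast_ofNat]
      exact ⟨fun _ => by trivial, fun _ => Or.inl (by decide)⟩
  have hkT : ¬ (Even (k : ℤ) ∧ Even (T : ℤ)) := by
    rintro ⟨h1, h2⟩
    rw [Int.even_coe_nat, even_iff_two_dvd] at h1 h2
    have := Nat.dvd_gcd h1 h2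
    rw [hcop] at this
    omega
  have ej2 : j0 = 2 ↔ (¬ Even (k : ℤ) ∧ ¬ Even (T : ℤ)) := by
    rw [hj0a, Int.even_coe_nat, Int.even_coe_nat, Nat.even_iff, Nat.even_iff]
    constructor <;> (rintro ⟨h1, h2⟩; constructor <;> omega)
  have hrel : (Even ((j : ℤ) * p + σ * ks * r')) ↔ Even ((q : ℤ) * v0) := by rw [hv0]
  simp only [Int.even_add, Int.even_mul] at hrel
  by_cases h0 : ¬ Even v0 ∧ ¬ Even (r' : ℤ)
  · refine ⟨0, by norm_num, ?_, ?_⟩
    · rw [← even_iff_two_dvd]; simpa using h0.1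
    · rw [← even_iff_two_dvd]; simpa using h0.2
  · have key : ¬ (Even v0 ↔ (Even (ks : ℤ))) ∧ ¬ (Even (r' : ℤ) ↔ Even (q : ℤ)) := by
      rw [← ek, eq']
      rw [ej, ej2, ← ek, eq'] at hrel
      exact prop_key hkT op oσ hrel h0
    refine ⟨1, by norm_num, ?_, ?_⟩
    · rw [← even_iff_two_dvd, Nat.cast_one, mul_one, Int.even_add, Int.even_mul]
      intro h
      apply key.1
      rw [h]
      exact ⟨fun h' => h'.resolve_left oσ, fun h' => Or.inr h'⟩
    · rw [← even_iff_two_dvd, Nat.cast_one, mul_one, Int.even_add]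
      exact key.2

/-- Key lemma: multipliers `v, kr < l` and a power of `r0` move the class of `n` to a class with a
small rough representative. -/
theorem key {B : ℕ} (hB : SieveB B) {y p l : ℕ} (hy : 2 ≤ y) (hp : p.Prime)
    (hbig : y ^ (2 * B + 12) ≤ p) (hl1 : y ^ (B + 6) ≤ l) (hl2 : l ≤ (y ^ B + 1) * p)
    {n : ℕ} (hn : ¬ p ∣ n) {r0 : ℕ} (hr0 : r0.Prime) (hr0y : y < r0) (hr0y2 : r0 ≤ 2 * y) :
    ∃ kr v e r : ℕ, Rgh y kr ∧ kr < l ∧ ¬ p ∣ kr ∧ Rgh y v ∧ v < l ∧ ¬ p ∣ v ∧ Rgh y r ∧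
      l * r < y ^ (2 * B + 12) * p ∧ r0 ^ e * v * kr * n ≡ r [MOD p] := by
  set I := y ^ B with hI
  set E := y ^ (B + 6) with hE
  have hy0 : 0 < y := by omega
  have hI1 : 1 ≤ I := Nat.one_le_pow _ _ hy0
  have hy5 : 32 ≤ y ^ 5 := by
    calc 32 = 2 ^ 5 := by norm_num
      _ ≤ y ^ 5 := Nat.pow_le_pow_left hy 5
  have hE1 : E = I * y * y ^ 5 := by rw [hE, hI]; ring
  have hEI : 32 * (I * y) ≤ E := by
    rw [hE1, mul_comm]
    exact Nat.mul_le_mul_left _ hy5
  have hL : y ^ (2 * B + 12) = y ^ 5 * (I * y * E) := by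
    rw [hE, hI, ← pow_succ, ← pow_add, ← pow_add]; congr 1; ring
  have hIy : 0 < I * y := Nat.mul_pos (by omega) hy0
  have hE0 : 0 < E := by omega
  have hp0 : 0 < p := hp.pos
  have hl0 : 0 < l := by omega
  have hyp : y < p := by
    have h1 : y < y ^ (2 * B + 12) := by
      have h2 : y ^ 1 < y ^ (2 * B + 12) := Nat.pow_lt_pow_right (by omega) (by omega)
      rwa [pow_one] at h2
    omega
  have hpodd : p % 2 = 1 := by
    rcases hp.eq_two_or_odd with h | h
    · omega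
    · exact h
  have hr0odd : r0 % 2 = 1 := by
    rcases hr0.eq_two_or_odd with h | h
    · omega
    · exact h
  set D := l / E with hD
  have hD1 : 1 ≤ D := (Nat.one_le_div_iff hE0).2 hl1
  have hDE : D * E ≤ l := Nat.div_mul_le_self l E
  have hDE2 : l < (D + 1) * E := by
    have := Nat.lt_div_mul_add (a := l) hE0
    rw [← hD] at this
    linarith
  have h32D : 32 * D ≤ 2 * p := by
    by_contra hcon
    have h1 : 2 * p < 32 * D := by omega
    have h2 : I * (2 * p) < I * (32 * D) := Nat.mul_lt_mul_of_pos_left h1 (by omega)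
    have h3 : (I + 1) * p ≤ I * (2 * p) := by
      calc (I + 1) * p ≤ (I * 2) * p := Nat.mul_le_mul_right _ (by omega)
        _ = I * (2 * p) := by ring
    have h4 : I * (32 * D) ≤ D * E := by
      have h5 : I * 32 ≤ E := by
        calc I * 32 ≤ 32 * (I * y) := by
              rw [mul_comm]
              exact Nat.mul_le_mul_left _ (Nat.le_mul_of_pos_right _ hy0)
          _ ≤ E := hEI
      calc I * (32 * D) = D * (I * 32) := by ring
        _ ≤ D * E := Nat.mul_le_mul_left _ h5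
    omega
  have hp32 : 32 < p := by
    have h1 : 32 < y ^ (2 * B + 12) := by
      calc 32 < 2 ^ 12 := by norm_num
        _ ≤ y ^ 12 := Nat.pow_le_pow_left hy 12
        _ ≤ _ := Nat.pow_le_pow_right hy0 (by omega)
    omega
  have hDp : D + 1 < p := by omega
  obtain ⟨k, T, σ, hσ, hk0, hkD, hT0, hTp, hcop, hdiv⟩ := dirichlet_coprime hp hD1 hDp hn
  obtain ⟨ks, kr, hk, hks0, hksy, hkr⟩ := smooth_rough y k hk0
  have hkrodd := hkr.odd hy
  have hksk : ks ≤ k := Nat.le_of_dvd hk0 ⟨kr, hk⟩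
  have hkrk : kr ≤ k := Nat.le_of_dvd hk0 ⟨ks, by rw [hk]; ring⟩
  have hσ2 : σ * σ = 1 := by rcases hσ with h | h <;> rw [h] <;> norm_num
  -- the number j0
  obtain ⟨j0, hj0, hj0a⟩ : ∃ j0 : ℕ, (j0 = 1 ∨ j0 = 2) ∧ (j0 = 2 ↔ (k % 2 = 1 ∧ T % 2 = 1)) := by
    by_cases h : k % 2 = 1 ∧ T % 2 = 1
    · exact ⟨2, Or.inr rfl, by tauto⟩
    · exact ⟨1, Or.inl rfl, by simp only [h, iff_false]; norm_num⟩
  have hj00 : 0 < j0 := by omega
  obtain ⟨α, β, hF1, hF2, hαβ⟩ := scale (u := 4 * j0 * p) (w := l * T) (r := r0)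
    (by positivity) (by positivity) hr0.two_le
  set j := j0 * r0 ^ α with hj
  set q := T * r0 ^ β with hq
  have hr0p : ∀ a : ℕ, 0 < r0 ^ a := fun a => pow_pos hr0.pos a
  have hq0 : 0 < q := Nat.mul_pos hT0 (hr0p β)
  have hj0' : 0 < j := Nat.mul_pos hj00 (hr0p α)
  have hF1' : 4 * (j * p) < l * q := by
    have e1 : 4 * j0 * p * r0 ^ α = 4 * (j * p) := by rw [hj]; ring
    have e2 : l * T * r0 ^ β = l * q := by rw [hq]; ring
    rw [e1, e2] at hF1; exact hF1
  have hF2' : l * q ≤ 8 * y * (j * p) := by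
    have e1 : r0 * (4 * j0 * p * r0 ^ α) = r0 * (4 * (j * p)) := by rw [hj]; ring
    have e2 : l * T * r0 ^ β = l * q := by rw [hq]; ring
    rw [e1, e2] at hF2
    calc l * q ≤ r0 * (4 * (j * p)) := hF2
      _ ≤ 2 * y * (4 * (j * p)) := Nat.mul_le_mul_right _ hr0y2
      _ = 8 * y * (j * p) := by ring
  have hjE : j ≤ E := by
    rcases hαβ with h | h
    · have : j = j0 := by rw [hj, h, pow_zero, mul_one]
      omega
    · have e : q = T := by rw [hq, h, pow_zero, mul_one]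
      rw [e] at hF1'
      by_contra hcon
      have h1 : E < j := by omega
      have h2 : (D + 1) * (4 * (j * p)) < (D + 1) * (l * T) := Nat.mul_lt_mul_of_pos_left hF1' (by omega)
      have h3 : (D + 1) * (l * T) = l * ((D + 1) * T) := by ring
      have h4 : l * ((D + 1) * T) ≤ l * p := Nat.mul_le_mul_left _ hTp
      have h5 : l * p < (D + 1) * E * p := Nat.mul_lt_mul_of_pos_right hDE2 hp0
      have h6 : (D + 1) * E * p ≤ (D + 1) * (4 * (j * p)) := by
        have h7 : E * p ≤ j * p := Nat.mul_le_mul_right _ h1.le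
        have : E * p ≤ 4 * (j * p) := by omega
        calc (D + 1) * E * p = (D + 1) * (E * p) := by ring
          _ ≤ _ := Nat.mul_le_mul_left _ this
      omega
  -- coprimality
  have hcopq : Nat.Coprime ks q := by
    apply Nat.Coprime.mul_right
    · exact Nat.Coprime.coprime_dvd_left ⟨kr, hk⟩ hcop
    · apply Nat.Coprime.pow_right
      rw [Nat.coprime_comm, Nat.Prime.coprime_iff_not_dvd hr0]
      intro h
      have := hksy r0 hr0 h
      omega
  obtain ⟨r', hr'0, hr'q, hr'd⟩ := residue hq0 hcopq ((j : ℤ) * p) σ hσ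
  obtain ⟨v0, hv0⟩ := hr'd
  have hjp : ∀ s : ℕ, s.Prime → s ≤ y → (s : ℤ) ∣ (j : ℤ) * p → s = 2 ∧ j0 = 2 := by
    intro s hs hsy hd
    have h1 : s ∣ j * p := by exact_mod_cast hd
    rcases hs.dvd_mul.1 h1 with h2 | h2
    · rcases hs.dvd_mul.1 h2 with h3 | h3
      · rcases hj0 with h4 | h4
        · rw [h4] at h3
          exact absurd (Nat.dvd_one.1 h3) hs.one_lt.ne'
        · rw [h4] at h3
          exact ⟨(Nat.prime_dvd_prime_iff_eq hs Nat.prime_two).1 h3, h4⟩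
      · have h4 := hs.dvd_of_dvd_pow h3
        have h5 := (Nat.prime_dvd_prime_iff_eq hs hr0).1 h4
        omega
    · have h5 := (Nat.prime_dvd_prime_iff_eq hs hp).1 h2
      omega
  -- parity of the two forms
  have h3 : ∃ t : ℕ, t < 2 ∧ ¬ (2 : ℤ) ∣ v0 + σ * ks * t ∧ ¬ (2 : ℤ) ∣ (r' : ℤ) + (q : ℤ) * t := by
    exact parity_forms hk hkrodd hpodd hr0odd hσ hj0 hj0a hcop hj hq hv0
  obtain ⟨t, ht0, htI, ht⟩ := sieve_forms hB hy (σ * ks) v0 (q : ℤ) (r' : ℤ)
    (fun s hs hsy h => by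
      have h1 : (s : ℤ) ∣ (j : ℤ) * p := by
        have h2 : (j : ℤ) * p = (q : ℤ) * v0 - σ * ks * r' := by linarith
        rw [h2]
        exact dvd_sub (Dvd.dvd.mul_left h.2 _) (Dvd.dvd.mul_right h.1 _)
      obtain ⟨h2, h4⟩ := hjp s hs hsy h1
      have h5 := (hj0a.1 h4).1
      have h6 : (s : ℤ) ∣ (ks : ℤ) := by
        have : (s : ℤ) ∣ σ * (σ * ks) := Dvd.dvd.mul_left h.1 _
        rw [← mul_assoc, hσ2, one_mul] at this
        exact this
      have h7 : s ∣ ks := by exact_mod_cast h6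
      have h8 : 2 ∣ k := by rw [← h2]; exact h7.trans ⟨kr, hk⟩
      omega)
    (fun s hs hsy h => by
      have h1 : (s : ℤ) ∣ (j : ℤ) * p := by
        have h2 : (j : ℤ) * p = (q : ℤ) * v0 - σ * ks * r' := by linarith
        rw [h2]
        exact dvd_sub (Dvd.dvd.mul_right h.1 _) (Dvd.dvd.mul_left h.2 _)
      obtain ⟨h2, h4⟩ := hjp s hs hsy h1
      have h5 := (hj0a.1 h4).2
      have h7 : s ∣ q := by exact_mod_cast h.1
      rw [h2] at h7
      rcases Nat.prime_two.dvd_mul.1 h7 with h8 | h8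
      · omega
      · have := Nat.prime_two.dvd_of_dvd_pow h8
        omega)
    h3
  -- sizes
  set V : ℤ := v0 + σ * ks * t with hV
  set r : ℕ := r' + q * t with hr
  have hrel : (q : ℤ) * V = (j : ℤ) * p + σ * ks * r := by
    rw [hV, hr]; push_cast
    linear_combination (-1 : ℤ) * hv0
  have hr1 : 0 < r := by omega
  have hrI : r ≤ 2 * q * I := by
    have h1 : q * t ≤ q * I := Nat.mul_le_mul_left _ htI
    have h2 : q ≤ q * I := Nat.le_mul_of_pos_right _ (by omega)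
    calc r = r' + q * t := hr
      _ ≤ q * I + q * I := by omega
      _ = 2 * q * I := by ring
  have hksD : ks ≤ D := hksk.trans hkD
  have hksr : ks * r < j * p := by
    have h1 : ks * r * l ≤ 16 * (I * y) * D * (j * p) := by
      calc ks * r * l ≤ D * (2 * q * I) * l :=
            Nat.mul_le_mul_right _ (Nat.mul_le_mul hksD hrI)
        _ = D * (2 * I) * (l * q) := by ring
        _ ≤ D * (2 * I) * (8 * y * (j * p)) := Nat.mul_le_mul_left _ hF2'
        _ = 16 * (I * y) * D * (j * p) := by ring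
    have h2 : 16 * (I * y) * D < l := by
      have h4 : 16 * (I * y) * D < E * D := Nat.mul_lt_mul_of_pos_right (by omega) (by omega)
      have h5 : E * D ≤ l := by rw [mul_comm]; exact hDE
      omega
    have h5 : 16 * (I * y) * D * (j * p) < l * (j * p) :=
      Nat.mul_lt_mul_of_pos_right h2 (Nat.mul_pos hj0' hp0)
    have h6 : ks * r * l < j * p * l := by
      calc ks * r * l ≤ _ := h1
        _ < l * (j * p) := h5
        _ = j * p * l := by ring
    exact Nat.lt_of_mul_lt_mul_right h6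
  have hksrz : (ks : ℤ) * r < (j : ℤ) * p := by exact_mod_cast hksr
  have hσr : σ * ks * r = (ks : ℤ) * r ∨ σ * ks * r = -((ks : ℤ) * r) := by
    rcases hσ with h | h
    · left; rw [h]; ring
    · right; rw [h]; ring
  have hksr0 : (0 : ℤ) ≤ (ks : ℤ) * r := by positivity
  have hqz : (0 : ℤ) < q := by exact_mod_cast hq0
  have hVpos : 0 < V := by
    have h1 : 0 < (q : ℤ) * V := by
      rw [hrel]
      rcases hσr with h | h <;> rw [h] <;> linarith
    exact (mul_pos_iff_of_pos_left hqz).1 h1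
  have hVl : V < l := by
    have h1 : (q : ℤ) * V < (q : ℤ) * l := by
      have h2 : (4 : ℤ) * ((j : ℤ) * p) < (l : ℤ) * q := by exact_mod_cast hF1'
      have h4 : (q : ℤ) * V < 2 * ((j : ℤ) * p) := by
        rw [hrel]
        rcases hσr with h | h <;> rw [h] <;> linarith
      have h5 : (q : ℤ) * l = (l : ℤ) * q := mul_comm _ _
      have h6 : (0 : ℤ) ≤ (j : ℤ) * p := by positivity
      linarith
    exact lt_of_mul_lt_mul_left h1 hqz.le
  obtain ⟨v, hv⟩ := Int.eq_ofNat_of_zero_le hVpos.le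
  have hv0' : 0 < v := by omega
  have hvl : v < l := by omega
  have hrv : Rgh y v := by
    refine ⟨hv0', fun s hs hd => ?_⟩
    by_contra hcon
    have h1 := (ht s hs (by omega)).1
    apply h1
    have h2 : (s : ℤ) ∣ V := by rw [hv]; exact_mod_cast hd
    exact h2
  have hrr : Rgh y r := by
    refine ⟨hr1, fun s hs hd => ?_⟩
    by_contra hcon
    have h1 := (ht s hs (by omega)).2
    apply h1
    have h2 : (s : ℤ) ∣ (r : ℤ) := by exact_mod_cast hd
    rw [hr] at h2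
    push_cast at h2
    exact h2
  have hlr : l * r < y ^ (2 * B + 12) * p := by
    calc l * r ≤ l * (2 * q * I) := Nat.mul_le_mul_left _ hrI
      _ = 2 * I * (l * q) := by ring
      _ ≤ 2 * I * (8 * y * (j * p)) := Nat.mul_le_mul_left _ hF2'
      _ = 16 * (I * y) * j * p := by ring
      _ ≤ 16 * (I * y) * E * p := by gcongr
      _ < y ^ 5 * (I * y * E) * p := by
          apply Nat.mul_lt_mul_of_pos_right _ hp0
          have h1 : 0 < I * y * E := Nat.mul_pos hIy hE0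
          calc 16 * (I * y) * E = 16 * (I * y * E) := by ring
            _ < y ^ 5 * (I * y * E) := Nat.mul_lt_mul_of_pos_right (by omega) h1
      _ = y ^ (2 * B + 12) * p := by rw [hL]
  have hpks : ¬ p ∣ ks := fun h => by
    have := Nat.le_of_dvd hks0 h
    omega
  have hpkr : ¬ p ∣ kr := fun h => by
    have := Nat.le_of_dvd hkr.1 h
    omega
  have hpv : ¬ p ∣ v := by
    intro h
    have h1 := Nat.le_of_dvd hv0' h
    have h2 : (p : ℤ) ∣ (ks : ℤ) * r := by
      have h4 : (p : ℤ) ∣ σ * (σ * ks * r) := by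
        apply Dvd.dvd.mul_left
        have e : σ * ks * r = (q : ℤ) * V - (j : ℤ) * p := by linarith
        rw [e, hv]
        apply dvd_sub
        · exact Dvd.dvd.mul_left (by exact_mod_cast h) _
        · exact Dvd.intro_left _ rfl
      have e2 : σ * (σ * ks * r) = (σ * σ) * ((ks : ℤ) * r) := by ring
      rw [e2, hσ2, one_mul] at h4
      exact h4
    have h4 : p ∣ ks * r := by exact_mod_cast h2
    rcases hp.dvd_mul.1 h4 with h5 | h5
    · exact hpks h5
    · have h6 := Nat.le_of_dvd hr1 h5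
      have h7 : p * p ≤ l * r := Nat.mul_le_mul (by omega) h6
      have h8 : y ^ (2 * B + 12) * p ≤ p * p := Nat.mul_le_mul_right _ hbig
      omega
  refine ⟨kr, v, β, r, hkr, ?_, hpkr, hrv, hvl, hpv, hrr, hlr, ?_⟩
  · have h1 : D * 1 < D * E := Nat.mul_lt_mul_of_pos_left (by omega) (by omega)
    omega
  · -- the congruence
    have h1 : (p : ℤ) ∣ (ks : ℤ) * ((r0 : ℤ) ^ β * v * kr * n - r) := by
      have e : (ks : ℤ) * ((r0 : ℤ) ^ β * v * kr * n - r) =
          (r0 : ℤ) ^ β * v * ((k : ℤ) * n - σ * T) + p * (σ * j) := by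
        have hq' : (q : ℤ) = T * (r0 : ℤ) ^ β := by rw [hq]; push_cast; ring
        have hk' : (k : ℤ) = ks * kr := by exact_mod_cast hk
        have hrel' := hrel
        rw [hv, hq'] at hrel'
        rw [hk']
        linear_combination σ * hrel' + (ks : ℤ) * r * hσ2
      rw [e]
      exact dvd_add (Dvd.dvd.mul_left hdiv _) (Dvd.intro _ rfl)
    rcases (Nat.prime_iff_prime_int.1 hp).dvd_or_dvd h1 with h2 | h2
    · exact absurd (by exact_mod_cast h2) hpks
    · have h4 : ((r : ℕ) : ℤ) ≡ ((r0 ^ β * v * kr * n : ℕ) : ℤ) [ZMOD p] := by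
        rw [Int.modEq_iff_dvd]
        push_cast
        exact h2
      exact (Int.natCast_modEq_iff.1 h4).symm

end Pool.Agent.LBS
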