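import Mathlib
import Pool.Agent.LBS.Key
import Pool.Agent.LBS.Fin

/-!
Rigidity in the semigroup of the integers without small prime factors.
-/

set_option maxHeartbeats 4000000

namespace Pool.Agent.LBS

open Finset hiding dens
open ArithmeticFunction (cardFactors cardFactors_mul cardFactors_apply_prime)

variable {G : Type*} [AddCommGroup G]

/-- standing hypotheses -/
structure RHyp (B y p : ℕ) (f : ℕ → G) : Prop where
  sieve : SieveB B
  hy : 2 ≤ y
  prime : p.Prime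
  big : y ^ (2 * B + 12) ≤ p
  mul : ∀ m n : ℕ, m ≠ 0 → n ≠ 0 → f (m * n) = f m + f n
  same : ∀ n n' : ℕ, Rgh y n → Rgh y n' → n < y ^ (2 * B + 12) * p →
    n' < y ^ (2 * B + 12) * p → ¬ p ∣ n → n' ≡ n [MOD p] → f n' = f n

/-- the relation for the multiplier `s` -/
def RT (B y p : ℕ) (f : ℕ → G) (s : ℕ) : Prop :=
  ∀ n n' : ℕ, Rgh y n → Rgh y n' → n < y ^ (2 * B + 12) * p → n' < y ^ (2 * B + 12) * p →
    ¬ p ∣ n → n' ≡ s * n [MOD p] → f n' = f s + f n

variable {B y p : ℕ} {f : ℕ → G}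

theorem pow_facts {B y : ℕ} (hy : 2 ≤ y) :
    (y ^ B + 1) ≤ y ^ (2 * B + 12) ∧ y ^ (B + 6) * (y ^ B + 1) ≤ y ^ (2 * B + 12) ∧
    (y ^ B + 1) * y ^ (2 * B + 12) ≤ y ^ (3 * B + 13) := by
  have hy0 : 0 < y := by omega
  have h1 : 1 ≤ y ^ B := Nat.one_le_pow _ _ hy0
  have h2 : y ^ B + 1 ≤ y ^ (B + 1) := by rw [pow_succ]; nlinarith
  refine ⟨h2.trans (Nat.pow_le_pow_right hy0 (by omega)), ?_, ?_⟩
  · calc y ^ (B + 6) * (y ^ B + 1) ≤ y ^ (B + 6) * y ^ (B + 1) := Nat.mul_le_mul_left _ h2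
      _ = y ^ (2 * B + 7) := by rw [← pow_add]; congr 1; ring
      _ ≤ _ := Nat.pow_le_pow_right hy0 (by omega)
  · calc (y ^ B + 1) * y ^ (2 * B + 12) ≤ y ^ (B + 1) * y ^ (2 * B + 12) :=
          Nat.mul_le_mul_right _ h2
      _ = _ := by rw [← pow_add]; congr 1; ring

theorem RHyp.lt (H : RHyp B y p f) : y < p := by
  have hy := H.hy
  have h1 : y ^ 2 ≤ y ^ (2 * B + 12) := Nat.pow_le_pow_right (by omega) (by omega)
  have h2 := H.big
  nlinarith

theorem RHyp.rep (H : RHyp B y p f) (c : ℕ) : ∃ m : ℕ, Rgh y m ∧ m ≡ c [MOD p] ∧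
    m < (y ^ B + 1) * p ∧ m < y ^ (2 * B + 12) * p := by
  obtain ⟨m, h1, h2, h3⟩ := rough_rep H.sieve H.hy H.prime H.lt c
  exact ⟨m, h1, h2, h3, lt_of_lt_of_le h3 (Nat.mul_le_mul_right _ (pow_facts H.hy).1)⟩

theorem not_dvd_of_modEq {p m n : ℕ} (h : m ≡ n [MOD p]) (hn : ¬ p ∣ n) : ¬ p ∣ m :=
  fun hm => hn ((h.dvd_iff (dvd_refl p)).1 hm)

theorem not_dvd_mul {p m n : ℕ} (hp : p.Prime) (hm : ¬ p ∣ m) (hn : ¬ p ∣ n) : ¬ p ∣ m * n :=
  fun h => by
    rcases hp.dvd_mul.1 h with h | h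
    · exact hm h
    · exact hn h

theorem RT_one (H : RHyp B y p f) : RT B y p f 1 := by
  intro n n' hn hn' hnL hn'L hpn hmod
  rw [one_mul] at hmod
  have h1 : f 1 = 0 := by
    have h := H.mul 1 1 one_ne_zero one_ne_zero
    rw [mul_one] at h
    have : f 1 + 0 = f 1 + f 1 := by rw [add_zero]; exact h
    exact (add_left_cancel this).symm
  rw [h1, zero_add]
  exact H.same n n' hn hn' hnL hn'L hpn hmod

theorem RT_mul (H : RHyp B y p f) {s t : ℕ} (hs0 : s ≠ 0) (ht0 : t ≠ 0) (hpt : ¬ p ∣ t)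
    (hs : RT B y p f s) (ht : RT B y p f t) : RT B y p f (s * t) := by
  intro n n' hn hn' hnL hn'L hpn hmod
  obtain ⟨m, hm, hmc, _, hmL⟩ := H.rep (t * n)
  have hpm : ¬ p ∣ m := not_dvd_of_modEq hmc (not_dvd_mul H.prime hpt hpn)
  have e1 := ht n m hn hm hnL hmL hpn hmc
  have h1 : n' ≡ s * m [MOD p] := by
    refine hmod.trans ?_
    rw [mul_assoc]
    exact Nat.ModEq.mul_left _ hmc.symm
  have e2 := hs m n' hm hn' hmL hn'L hpm h1
  rw [H.mul _ _ hs0 ht0, e2, e1, add_assoc]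

theorem RT_pow (H : RHyp B y p f) {s : ℕ} (hs0 : s ≠ 0) (hps : ¬ p ∣ s)
    (hs : RT B y p f s) (a : ℕ) : RT B y p f (s ^ a) := by
  induction a with
  | zero => rw [pow_zero]; exact RT_one H
  | succ a ih => rw [pow_succ]; exact RT_mul H (pow_ne_zero _ hs0) hs0 hps ih hs

theorem RT_base (H : RHyp B y p f) {l : ℕ} (hl : Rgh y l) (hpl : ¬ p ∣ l)
    (hsmall : l * (y ^ B + 1) ≤ y ^ (2 * B + 12)) : RT B y p f l := by
  intro n n' hn hn' hnL hn'L hpn hmod
  obtain ⟨m, hm, hmc, hmJ, hmL⟩ := H.rep n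
  have hpm : ¬ p ∣ m := not_dvd_of_modEq hmc hpn
  have e1 := H.same n m hn hm hnL hmL hpn hmc
  have h1 : l * m < y ^ (2 * B + 12) * p := by
    calc l * m < l * ((y ^ B + 1) * p) := Nat.mul_lt_mul_of_pos_left hmJ hl.1
      _ = l * (y ^ B + 1) * p := by ring
      _ ≤ _ := Nat.mul_le_mul_right _ hsmall
  have h2 : n' ≡ l * m [MOD p] := hmod.trans (Nat.ModEq.mul_left _ hmc.symm)
  have e2 := H.same (l * m) n' (hl.mul hm) hn' h1 hn'L (not_dvd_mul H.prime hpl hpm) h2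
  rw [e2, H.mul _ _ hl.1.ne' hm.1.ne', e1]

theorem RT_step (H : RHyp B y p f) {l : ℕ} (hl : Rgh y l) (hpl : ¬ p ∣ l)
    (hl1 : y ^ (B + 6) ≤ l) (hl2 : l ≤ (y ^ B + 1) * p)
    (ih : ∀ s : ℕ, Rgh y s → ¬ p ∣ s → s < l → RT B y p f s) : RT B y p f l := by
  intro n n' hn hn' hnL hn'L hpn hmod
  have hy := H.hy
  obtain ⟨r0, hr0, hr0y, hr0y2⟩ := Nat.exists_prime_lt_and_le_two_mul y (by omega)
  obtain ⟨kr, v, e, r, hkr, hkrl, hpkr, hv, hvl, hpv, hr, hlr, hc⟩ :=
    key H.sieve H.hy H.prime H.big hl1 hl2 hpn hr0 hr0y hr0y2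
  have hyp := H.lt
  have hbig := H.big
  have h64 : 4 * y ≤ y ^ (B + 6) := by
    calc 4 * y ≤ y ^ 2 * y := by nlinarith
      _ = y ^ 3 := by ring
      _ ≤ y ^ (B + 6) := Nat.pow_le_pow_right (by omega) (by omega)
  have hr0l : r0 < l := by omega
  have hr0R : Rgh y r0 := Rgh.of_prime hr0 hr0y
  have h4p : 4 * y ≤ p := by
    calc 4 * y ≤ y ^ (B + 6) := h64
      _ ≤ y ^ (2 * B + 12) := Nat.pow_le_pow_right (by omega) (by omega)
      _ ≤ p := hbig
  have hpr0 : ¬ p ∣ r0 := fun h => by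
    have := Nat.le_of_dvd hr0.pos h
    omega
  have hpr0e : ¬ p ∣ r0 ^ e := fun h => hpr0 (H.prime.dvd_of_dvd_pow h)
  have R1 := RT_pow H hr0.ne_zero hpr0 (ih r0 hr0R hpr0 hr0l) e
  have R2 := RT_mul H (pow_ne_zero _ hr0.ne_zero) hv.1.ne' hpv R1 (ih v hv hpv hvl)
  have R3 := RT_mul H (mul_ne_zero (pow_ne_zero _ hr0.ne_zero) hv.1.ne') hkr.1.ne' hpkr R2
    (ih kr hkr hpkr hkrl)
  set s := r0 ^ e * v * kr with hs
  have hl0 := hl.1
  have hrL : r < y ^ (2 * B + 12) * p := by nlinarith [hr.1]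
  have e1 := R3 n r hn hr hnL hrL hpn hc.symm
  have hpn' : ¬ p ∣ n' := not_dvd_of_modEq hmod (not_dvd_mul H.prime hpl hpn)
  have h1 : l * r ≡ s * n' [MOD p] := by
    have h2 : l * r ≡ l * (s * n) [MOD p] := Nat.ModEq.mul_left _ hc.symm
    have h3 : s * n' ≡ s * (l * n) [MOD p] := Nat.ModEq.mul_left _ hmod
    have e : l * (s * n) = s * (l * n) := by ring
    rw [e] at h2
    exact h2.trans h3.symm
  have e2 := R3 n' (l * r) hn' (hl.mul hr) hn'L hlr hpn' h1
  rw [H.mul _ _ hl0.ne' hr.1.ne', e1] at e2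
  -- f l + (f s + f n) = f s + f n'
  have h3 : f s + f n' = f s + (f l + f n) := by rw [← e2]; abel
  exact add_left_cancel h3

theorem RT_all (H : RHyp B y p f) : ∀ l : ℕ, Rgh y l → ¬ p ∣ l → l < (y ^ B + 1) * p →
    RT B y p f l := by
  intro l
  induction l using Nat.strong_induction_on with
  | _ l ih =>
    intro hl hpl hlt
    rcases Nat.lt_or_ge l (y ^ (B + 6)) with h | h
    · apply RT_base H hl hpl
      exact le_trans (Nat.mul_le_mul_right _ h.le) (pow_facts H.hy).2.1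
    · exact RT_step H hl hpl h hlt.le fun s hs hps hsl => ih s hsl hs hps (by omega)

/-! ### a split prime without small prime factors around -/

theorem sq_card {q : ℕ} (hq : q.Prime) (hq2 : q ≠ 2) (c : ℤ) :
    ((range q).filter (fun m : ℕ => (q : ℤ) ∣ 4 * (m : ℤ) ^ 2 + c)).card ≤ 2 := by
  classical
  by_cases hne : ((range q).filter (fun m : ℕ => (q : ℤ) ∣ 4 * (m : ℤ) ^ 2 + c)).Nonempty
  · obtain ⟨m0, hm0⟩ := hne
    obtain ⟨h1, h2⟩ := Finset.mem_filter.1 hm0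
    rw [mem_range] at h1
    have hsub : (range q).filter (fun m : ℕ => (q : ℤ) ∣ 4 * (m : ℤ) ^ 2 + c) ⊆
        {m0, (q - m0) % q} := by
      intro m hm
      obtain ⟨h3, h4⟩ := Finset.mem_filter.1 hm
      rw [mem_range] at h3
      have h5 : (q : ℤ) ∣ 4 * (((m : ℤ) - m0) * ((m : ℤ) + m0)) := by
        have := dvd_sub h4 h2
        have e : 4 * (m : ℤ) ^ 2 + c - (4 * (m0 : ℤ) ^ 2 + c) =
            4 * (((m : ℤ) - m0) * ((m : ℤ) + m0)) := by ring
        rwa [e] at this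
      have hqp := Nat.prime_iff_prime_int.1 hq
      rw [Finset.mem_insert, Finset.mem_singleton]
      rcases hqp.dvd_or_dvd h5 with h6 | h6
      · exfalso
        have h7 : q ∣ 2 ^ 2 := by exact_mod_cast h6
        have h8 := hq.dvd_of_dvd_pow h7
        exact hq2 ((Nat.prime_dvd_prime_iff_eq hq Nat.prime_two).1 h8)
      · rcases hqp.dvd_or_dvd h6 with h7 | h7
        · left
          have h8 : (m : ℤ) - m0 = 0 := by
            apply Int.eq_zero_of_abs_lt_dvd h7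
            rw [abs_lt]
            constructor <;> omega
          omega
        · right
          obtain ⟨z, hz⟩ := h7
          have hq0 : 0 < q := hq.pos
          have hz0 : 0 ≤ z := by
            by_contra hcon
            have : z ≤ -1 := by omega
            nlinarith
          have hz2 : z < 2 := by
            by_contra hcon
            have : 2 ≤ z := by omega
            nlinarith
          have hz' : z = 0 ∨ z = 1 := by omega
          rcases hz' with h8 | h8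
          · rw [h8, mul_zero] at hz
            have hm : m = 0 := by omega
            have hm' : m0 = 0 := by omega
            rw [hm, hm']
            simp
          · rw [h8, mul_one] at hz
            have hm : m = q - m0 := by omega
            rw [hm]
            have : q - m0 < q := by omega
            exact (Nat.mod_eq_of_lt this).symm
    exact (Finset.card_le_card hsub).trans (Finset.card_le_two)
  · rw [Finset.not_nonempty_iff_eq_empty.1 hne]
    simp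

theorem split_one {p l m : ℕ} (hp : p.Prime) (h4 : p % 4 = 1) (hl : l.Prime) (hl2 : l ≠ 2)
    (hm : 4 * m ^ 2 ≤ p) (hd : l ∣ p - 4 * m ^ 2) : IsSquare (l : ZMod p) := by
  have : Fact p.Prime := ⟨hp⟩
  have : Fact l.Prime := ⟨hl⟩
  rw [ZMod.exists_sq_eq_prime_iff_of_mod_four_eq_one h4 hl2]
  have h0 : ((p - 4 * m ^ 2 : ℕ) : ZMod l) = 0 := (ZMod.natCast_eq_zero_iff _ _).mpr hd
  rw [Nat.cast_sub hm] at h0
  refine ⟨2 * m, ?_⟩
  have h1 := sub_eq_zero.mp h0
  rw [h1]; push_cast; ring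

theorem split_three {p l m : ℕ} (hp : p.Prime) (h4 : p % 4 = 3) (hl : l.Prime) (hl2 : l ≠ 2)
    (hm0 : 0 < m) (hmp : m < p) (hd : l ∣ p + 4 * m ^ 2) : l ≠ p ∧ IsSquare (l : ZMod p) := by
  have : Fact p.Prime := ⟨hp⟩
  have : Fact l.Prime := ⟨hl⟩
  have hlm : ¬ l ∣ m := by
    intro h
    have h1 : l ∣ 4 * m ^ 2 := Dvd.dvd.mul_left (Dvd.dvd.pow h (by norm_num)) _
    have h2 : l ∣ p := (Nat.dvd_add_left h1).1 hd
    have h3 := (Nat.prime_dvd_prime_iff_eq hl hp).1 h2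
    rw [h3] at h
    have := Nat.le_of_dvd hm0 h
    omega
  have hlp : l ≠ p := by
    rintro rfl
    have h1 : l ∣ 4 * m ^ 2 := (Nat.dvd_add_right (dvd_refl l)).1 hd
    rcases hl.dvd_mul.1 h1 with h2 | h2
    · have h3 : l ∣ 2 ^ 2 := by simpa using h2
      have h5 := hl.dvd_of_dvd_pow h3
      exact hl2 ((Nat.prime_dvd_prime_iff_eq hl Nat.prime_two).1 h5)
    · exact hlm (hl.dvd_of_dvd_pow h2)
  refine ⟨hlp, ?_⟩
  have hlodd : l % 2 = 1 := by
    rcases hl.eq_two_or_odd with h' | h'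
    · exact absurd h' hl2
    · exact h'
  have h0 : ((p + 4 * m ^ 2 : ℕ) : ZMod l) = 0 := (ZMod.natCast_eq_zero_iff _ _).mpr hd
  push_cast at h0
  have h1 : (p : ZMod l) = -1 * (2 * m) ^ 2 := by
    have := eq_neg_of_add_eq_zero_left h0
    rw [this]; ring
  have hl4 : l % 4 = 1 ∨ l % 4 = 3 := by omega
  rcases hl4 with h' | h'
  · rw [← ZMod.exists_sq_eq_prime_iff_of_mod_four_eq_one h' (by
      rintro rfl; omega : p ≠ 2)]
    have h2 : IsSquare (-1 : ZMod l) := by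
      rw [ZMod.exists_sq_eq_neg_one_iff]; omega
    obtain ⟨r, hr⟩ := h2
    exact ⟨r * (2 * m), by rw [h1, hr]; ring⟩
  · rw [ZMod.exists_sq_eq_prime_iff_of_mod_four_eq_three h4 h' (Ne.symm hlp), h1]
    intro h2
    have h3 : IsSquare (-1 : ZMod l) := by
      obtain ⟨r, hr⟩ := h2
      have h20 : (2 * m : ZMod l) ≠ 0 := by
        intro h0'
        have h5 : ((2 * m : ℕ) : ZMod l) = 0 := by exact_mod_cast h0'
        rw [ZMod.natCast_eq_zero_iff] at h5
        rcases hl.dvd_mul.1 h5 with h6 | h6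
        · exact hl2 ((Nat.prime_dvd_prime_iff_eq hl Nat.prime_two).1 h6)
        · exact hlm h6
      refine ⟨r * (2 * m : ZMod l)⁻¹, ?_⟩
      have e : r * (2 * m : ZMod l)⁻¹ * (r * (2 * m : ZMod l)⁻¹) =
          (r * r) * ((2 * m : ZMod l)⁻¹ ^ 2) := by ring
      rw [e, ← hr, mul_assoc, ← mul_pow, mul_inv_cancel₀ h20, one_pow, mul_one]
    rw [ZMod.exists_sq_eq_neg_one_iff] at h3
    exact h3 h'

theorem exists_split {B y p : ℕ} (hB : SieveB B) (hy : 2 ≤ y) (hp : p.Prime)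
    (hbig : y ^ (2 * B + 12) ≤ p) :
    ∃ l : ℕ, l.Prime ∧ y < l ∧ l < 2 * p ∧ l ≠ p ∧ IsSquare (l : ZMod p) := by
  classical
  have hy0 : 0 < y := by omega
  have hpodd : p % 2 = 1 := by
    rcases hp.eq_two_or_odd with h | h
    · have h1 : y ^ 2 ≤ y ^ (2 * B + 12) := Nat.pow_le_pow_right hy0 (by omega)
      nlinarith
    · exact h
  -- a sieved `m`
  have hsv : ∀ c : ℤ, c % 2 = 1 → ∃ m : ℕ, 0 < m ∧ m ≤ y ^ B ∧ ∀ q : ℕ, q.Prime → q ≤ y →
      ¬ (q : ℤ) ∣ 4 * (m : ℤ) ^ 2 + c := by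
    intro c hc
    set R : ℕ → Finset ℕ := fun q =>
      (range q).filter (fun m : ℕ => (q : ℤ) ∣ 4 * (m : ℤ) ^ 2 + c) with hR
    have hR2 : R 2 = ∅ := by
      rw [hR]
      apply Finset.eq_empty_of_forall_notMem
      intro m hm
      have h1 := (Finset.mem_filter.1 hm).2
      push_cast at h1
      omega
    have hcard : ∀ q : ℕ, q.Prime → q ≤ y → (R q).card ≤ 2 := by
      intro q hq _
      by_cases h2 : q = 2
      · rw [h2, hR2]; simp
      · exact sq_card hq h2 c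
    obtain ⟨t, ht0, htB, ht⟩ := hB.2 y hy R (fun q hq hqy => ⟨by
      refine Finset.ssubset_iff_subset_ne.2 ⟨Finset.filter_subset _ _, fun heq => ?_⟩
      have hc' := hcard q hq hqy
      rw [heq, card_range] at hc'
      have hq2 : q = 2 := by have := hq.two_le; omega
      rw [hq2, hR2] at heq
      have : (0 : ℕ) ∈ (∅ : Finset ℕ) := by rw [heq]; simp
      simp at this, hcard q hq hqy⟩) 0
    refine ⟨t, ht0, by omega, fun q hq hqy hd => ?_⟩
    apply ht q hq hqy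
    refine Finset.mem_filter.2 ⟨mem_range.2 (Nat.mod_lt _ hq.pos), ?_⟩
    have h1 : (t : ℤ) = q * ((t / q : ℕ) : ℤ) + ((t % q : ℕ) : ℤ) := by
      exact_mod_cast (Nat.div_add_mod t q).symm
    have h2 : 4 * (((t % q : ℕ) : ℤ)) ^ 2 + c = 4 * (t : ℤ) ^ 2 + c -
        q * (4 * ((t / q : ℕ) : ℤ) * ((t : ℤ) + ((t % q : ℕ) : ℤ))) := by
      have h3 : ((t % q : ℕ) : ℤ) = (t : ℤ) - q * ((t / q : ℕ) : ℤ) := by linarith
      rw [h3]; ring
    rw [h2]
    exact dvd_sub hd (Dvd.intro _ rfl)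
  have hsize : ∀ m : ℕ, m ≤ y ^ B → 4 * m ^ 2 + 2 ≤ p := by
    intro m hm
    have h1 : m ^ 2 ≤ y ^ (2 * B) := by
      calc m ^ 2 ≤ (y ^ B) ^ 2 := Nat.pow_le_pow_left hm 2
        _ = y ^ (2 * B) := by rw [← pow_mul]; congr 1; ring
    have h2 : 8 * y ^ (2 * B) ≤ y ^ (2 * B + 12) := by
      have h3 : 8 ≤ y ^ 12 := by
        calc 8 ≤ 2 ^ 12 := by norm_num
          _ ≤ y ^ 12 := Nat.pow_le_pow_left hy 12
      rw [pow_add, mul_comm]
      exact Nat.mul_le_mul_left _ h3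
    have h4 : 1 ≤ y ^ (2 * B) := Nat.one_le_pow _ _ hy0
    omega
  have h4 : p % 4 = 1 ∨ p % 4 = 3 := by omega
  rcases h4 with h4 | h4
  · obtain ⟨m, hm0, hmB, hm⟩ := hsv (-(p : ℤ)) (by omega)
    have hs := hsize m hmB
    obtain ⟨l, hl, hd⟩ := Nat.exists_prime_and_dvd (n := p - 4 * m ^ 2) (by omega)
    have hle : l ≤ p - 4 * m ^ 2 := Nat.le_of_dvd (by omega) hd
    have hyl : y < l := by
      by_contra hcon
      apply hm l hl (by omega)
      have h1 : (l : ℤ) ∣ ((p - 4 * m ^ 2 : ℕ) : ℤ) := by exact_mod_cast hd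
      rw [Nat.cast_sub (by omega)] at h1
      have h2 := (dvd_neg (a := (l : ℤ))).2 h1
      have e : -(((p : ℕ) : ℤ) - ((4 * m ^ 2 : ℕ) : ℤ)) = 4 * (m : ℤ) ^ 2 + -(p : ℤ) := by
        push_cast; ring
      rwa [e] at h2
    have hm2 : 0 < m ^ 2 := by positivity
    exact ⟨l, hl, hyl, by omega, by omega, split_one hp h4 hl (by omega) (by omega) hd⟩
  · obtain ⟨m, hm0, hmB, hm⟩ := hsv (p : ℤ) (by omega)
    have hs := hsize m hmB
    obtain ⟨l, hl, hd⟩ := Nat.exists_prime_and_dvd (n := p + 4 * m ^ 2) (by omega)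
    have hle : l ≤ p + 4 * m ^ 2 := Nat.le_of_dvd (by omega) hd
    have hyl : y < l := by
      by_contra hcon
      apply hm l hl (by omega)
      have h1 : (l : ℤ) ∣ ((p + 4 * m ^ 2 : ℕ) : ℤ) := by exact_mod_cast hd
      push_cast at h1
      rw [add_comm]
      exact h1
    have hmp : m < p := by nlinarith
    obtain ⟨h5, h6⟩ := split_three hp h4 hl (by omega) hm0 hmp hd
    exact ⟨l, hl, hyl, by omega, h5, h6⟩

/-! ### the contradiction -/

theorem rough_not_const {B y p : ℕ} (hB : SieveB B) (hy : 2 ≤ y) (hp : p.Prime)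
    (hbig : y ^ (3 * B + 13) ≤ p) {a : ℕ} (ha : ¬ p ∣ a) (c : ZMod 2) :
    ¬ ∀ n : ℕ, n < y ^ (3 * B + 13) * p ^ 2 → n ≡ a [MOD p] → Rgh y n →
      ((cardFactors n : ℕ) : ZMod 2) = c := by
  intro hc
  have : Fact p.Prime := ⟨hp⟩
  have hy0 : 0 < y := by omega
  have hbig' : y ^ (2 * B + 12) ≤ p :=
    (Nat.pow_le_pow_right hy0 (by omega)).trans hbig
  have hyp : y < p := by
    have h1 : y ^ 2 ≤ y ^ (2 * B + 12) := Nat.pow_le_pow_right (by omega) (by omega)
    nlinarith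
  have hmul : ∀ m n : ℕ, m ≠ 0 → n ≠ 0 →
      ((cardFactors (m * n) : ℕ) : ZMod 2) = (cardFactors m : ℕ) + (cardFactors n : ℕ) := by
    intro m n hm hn
    rw [cardFactors_mul hm hn]
    push_cast
    rfl
  have ha' : (a : ZMod p) ≠ 0 := by
    intro h
    rw [ZMod.natCast_eq_zero_iff] at h
    exact ha h
  obtain ⟨hf1, hf2, hf3⟩ := pow_facts (B := B) hy
  have H : RHyp B y p (fun n => ((cardFactors n : ℕ) : ZMod 2)) :=
    { sieve := hB
      hy := hy
      prime := hp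
      big := hbig'
      mul := hmul
      same := by
        intro n n' hn hn' hnL hn'L hpn hmod
        have hn0 : (n : ZMod p) ≠ 0 := by
          intro h
          rw [ZMod.natCast_eq_zero_iff] at h
          exact hpn h
        obtain ⟨m, hm, hmc, hmlt⟩ := rough_rep hB hy hp hyp ((a : ZMod p) * (n : ZMod p)⁻¹).val
        have hmz : (m : ZMod p) = (a : ZMod p) * (n : ZMod p)⁻¹ := by
          have h1 := (ZMod.natCast_eq_natCast_iff _ _ _).2 hmc
          rw [h1, ZMod.natCast_val, ZMod.cast_id]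
        have key : ∀ k : ℕ, Rgh y k → k < y ^ (2 * B + 12) * p → k ≡ n [MOD p] →
            ((cardFactors (m * k) : ℕ) : ZMod 2) = c := by
          intro k hk hkL hkn
          apply hc
          · calc m * k < (y ^ B + 1) * p * (y ^ (2 * B + 12) * p) :=
                  Nat.mul_lt_mul'' hmlt hkL
              _ = (y ^ B + 1) * y ^ (2 * B + 12) * p ^ 2 := by ring
              _ ≤ _ := Nat.mul_le_mul_right _ hf3
          · rw [← ZMod.natCast_eq_natCast_iff]
            have hkz : (k : ZMod p) = (n : ZMod p) := (ZMod.natCast_eq_natCast_iff _ _ _).2 hkn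
            push_cast
            rw [hmz, hkz, mul_assoc, inv_mul_cancel₀ hn0, mul_one]
          · exact hm.mul hk
        have e1 := key n hn hnL (Nat.ModEq.refl _)
        have e2 := key n' hn' hn'L hmod
        rw [hmul _ _ hm.1.ne' hn.1.ne'] at e1
        rw [hmul _ _ hm.1.ne' hn'.1.ne'] at e2
        exact add_left_cancel (e2.trans e1.symm) }
  obtain ⟨l, hl, hyl, hl2, hlp, r, hr⟩ := exists_split hB hy hp hbig'
  have hpl : ¬ p ∣ l := by
    intro h
    rcases (Nat.dvd_prime hl).mp h with h1 | h1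
    · exact hp.one_lt.ne' h1
    · exact hlp h1.symm
  obtain ⟨m, hm, hmc, hmJ, hmL⟩ := H.rep r.val
  have hmr : (m : ZMod p) = r := by
    have h1 := (ZMod.natCast_eq_natCast_iff _ _ _).2 hmc
    rw [h1, ZMod.natCast_val, ZMod.cast_id]
  have hlm : l ≡ m * m [MOD p] := by
    rw [← ZMod.natCast_eq_natCast_iff]
    push_cast
    rw [hmr, hr]
  have hpm : ¬ p ∣ m := by
    intro h
    exact hpl ((hlm.dvd_iff (dvd_refl p)).2 (Dvd.dvd.mul_left h _))
  have hlL : l < y ^ (2 * B + 12) * p := by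
    have h1 : 2 ≤ y ^ (2 * B + 12) := by
      calc 2 ≤ y := hy
        _ = y ^ 1 := (pow_one y).symm
        _ ≤ _ := Nat.pow_le_pow_right hy0 (by omega)
    have := Nat.mul_le_mul_right p h1
    omega
  have h1 := RT_all H m hm hpm hmJ m l hm (Rgh.of_prime hl hyl) hmL hlL hpm hlm
  have h3 : ∀ z : ZMod 2, z + z = 0 := by decide
  have h4 : ((cardFactors l : ℕ) : ZMod 2) = 0 := h1.trans (h3 _)
  rw [cardFactors_apply_prime hl] at h4
  exact absurd h4 (by decide)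

theorem main_rough : ∃ C : ℕ, ∀ p : ℕ, p.Prime → ∀ y : ℕ, 2 ≤ y → y ^ C ≤ p →
    ∀ a : ℕ, ¬ p ∣ a →
    (∃ n : ℕ, 0 < n ∧ n < y ^ C * p ^ 2 ∧ n ≡ a [MOD p] ∧
      (∀ q : ℕ, q.Prime → q ∣ n → y < q) ∧ Odd (cardFactors n)) ∧
    (∃ n : ℕ, 0 < n ∧ n < y ^ C * p ^ 2 ∧ n ≡ a [MOD p] ∧
      (∀ q : ℕ, q.Prime → q ∣ n → y < q) ∧ Even (cardFactors n)) := by
  obtain ⟨B, hB1, hB2⟩ := sieve_two
  have hB : SieveB B := ⟨hB1, hB2⟩
  refine ⟨3 * B + 13, fun p hp y hy hbig a ha => ⟨?_, ?_⟩⟩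
  · by_contra hcon
    push Not at hcon
    refine rough_not_const hB hy hp hbig ha 0 (fun n h1 h2 h3 => ?_)
    have h4 := hcon n h3.1 h1 h2 h3.2
    rw [Nat.not_odd_iff_even] at h4
    exact (ZMod.natCast_eq_zero_iff_even).mpr h4
  · by_contra hcon
    push Not at hcon
    refine rough_not_const hB hy hp hbig ha 1 (fun n h1 h2 h3 => ?_)
    have h4 := hcon n h3.1 h1 h2 h3.2
    rw [Nat.not_even_iff_odd] at h4
    exact (ZMod.natCast_eq_one_iff_odd).mpr h4

end Pool.Agent.LBS
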